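import Pool.Agent.Lib.Tate.Idx.Spec

/-!
# C42, block Idx: stability of the index (helper12)
-/

set_option autoImplicit false

open Set Filter Topology

noncomputable section

namespace Pool.Agent.Tate.Idx

namespace B1x

variable {V W X : Type} [NormedAddCommGroup V] [NormedSpace ℂ V] [NormedAddCommGroup W]
  [NormedSpace ℂ W] [NormedAddCommGroup X] [NormedSpace ℂ X]

theorem cr (A : V →L[ℂ] W) {B : W →L[ℂ] X} (h : FR (B : W →ₗ[ℂ] X)) :
    FR ((B ∘L A : V →L[ℂ] X) : V →ₗ[ℂ] X) := by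
  have : FR ((B : W →ₗ[ℂ] X) ∘ₗ (A : V →ₗ[ℂ] W)) := by
    unfold FR at *
    exact Submodule.finiteDimensional_of_le (LinearMap.range_comp_le_range _ _)
  exact this

end B1x

theorem pB1 (h1 : S_I2) (h2 : S_I3) (h3 : S_I4) : S_B1 := by
  intro V W _ _ _ _ _ gV gW T D S hS hD hn
  have hn' : ‖-(S ∘L D)‖ < 1 := by rwa [norm_neg]
  set U : (V →L[ℂ] V)ˣ := Units.oneSub (-(S ∘L D)) hn' with hU
  have hUv : (U : V →L[ℂ] V) = 1 + S ∘L D := by
    show 1 - -(S ∘L D) = _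
    rw [sub_neg_eq_add]
  have c1 : (1 + S ∘L D) ∘L gV = gV ∘L (1 + S ∘L D) := by
    rw [ContinuousLinearMap.add_comp, ContinuousLinearMap.comp_add,
      ContinuousLinearMap.comp_assoc, hD, ← ContinuousLinearMap.comp_assoc, hS.eS]
    rfl
  have a1 : HasInd gV gV (1 + S ∘L D) 0 := by
    refine h3 V V gV gV _ ((U⁻¹ : (V →L[ℂ] V)ˣ) : V →L[ℂ] V) c1 ?_ ?_
    · rw [← hUv]
      exact U.inv_mul
    · rw [← hUv]
      exact U.mul_inv
  have a2 := h1 V V W gV gV gW _ T 0 _ a1 ⟨S, hS, rfl⟩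
  rw [zero_add] at a2
  have hq : (1 - T ∘L S) ∘L gW = gW ∘L (1 - T ∘L S) := by
    rw [ContinuousLinearMap.sub_comp, ContinuousLinearMap.comp_sub,
      ContinuousLinearMap.comp_assoc, hS.eS, ← ContinuousLinearMap.comp_assoc, hS.eT]
    rfl
  have a3 := h2 V W gV gW _ ((1 - T ∘L S) ∘L D) _ a2 (B1x.cr D hS.fq) (by
    rw [ContinuousLinearMap.comp_assoc, hD, ← ContinuousLinearMap.comp_assoc, hq]
    rfl)
  have e : T + D = T ∘L (1 + S ∘L D) + (1 - T ∘L S) ∘L D := by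
    ext x
    simp
  rw [e]
  exact a3

end Pool.Agent.Tate.Idx
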