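import Pool.Agent.Lib.Tate.Idx.Spec

set_option autoImplicit false

open Set Filter Topology

namespace Pool.Agent.Tate.Idx

theorem pB2 (h2 : S_T2) (_h3 : S_T3) (hB4 : S_B4) (hB5 : S_B5) : S_B2 := by
  intro V W _ _ _ _ _ _ gV gW T S S' A K A' K' g1 g2 n1 n2 eT hA hK hS hA' hK' hS'
  obtain ⟨S₁, e₁, f₁⟩ := hB4 V W gV gW T S A K g1 g2 n1 n2 eT hA hK hS
  obtain ⟨S₂, e₂, f₂⟩ := hB5 V W gV gW T S' A' K' g1 g2 n1 n2 eT hA' hK' hS'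
  refine ⟨_, S₂, ⟨eT, e₂, ?_, f₂⟩, rfl⟩
  have key : (((1 - S₂ ∘L T : V →L[ℂ] V)) : V →ₗ[ℂ] V) =
      (((1 - S₁ ∘L T : V →L[ℂ] V)) : V →ₗ[ℂ] V) +
        ((S₁ : W →ₗ[ℂ] V) ∘ₗ (((1 - T ∘L S₂ : W →L[ℂ] W)) : W →ₗ[ℂ] W) +
          (-1 : ℂ) • ((((1 - S₁ ∘L T : V →L[ℂ] V)) : V →ₗ[ℂ] V) ∘ₗ (S₂ : W →ₗ[ℂ] V))) ∘ₗ
            (T : V →ₗ[ℂ] W) := by
    ext x
    simp
  rw [key]
  have a1 : FR ((S₁ : W →ₗ[ℂ] V) ∘ₗ (((1 - T ∘L S₂ : W →L[ℂ] W)) : W →ₗ[ℂ] W)) := by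
    unfold FR at f₂ ⊢
    rw [LinearMap.range_comp]
    infer_instance
  have a2 : FR ((((1 - S₁ ∘L T : V →L[ℂ] V)) : V →ₗ[ℂ] V) ∘ₗ (S₂ : W →ₗ[ℂ] V)) := by
    unfold FR at f₁ ⊢
    exact Submodule.finiteDimensional_of_le (LinearMap.range_comp_le_range _ _)
  have a3 := (h2 W V).1 _ _ a1 ((h2 W V).2.1 (-1) _ a2)
  have a4 : FR (((S₁ : W →ₗ[ℂ] V) ∘ₗ (((1 - T ∘L S₂ : W →L[ℂ] W)) : W →ₗ[ℂ] W) +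
          (-1 : ℂ) • ((((1 - S₁ ∘L T : V →L[ℂ] V)) : V →ₗ[ℂ] V) ∘ₗ (S₂ : W →ₗ[ℂ] V))) ∘ₗ
            (T : V →ₗ[ℂ] W)) := by
    unfold FR at a3 ⊢
    exact Submodule.finiteDimensional_of_le (LinearMap.range_comp_le_range _ _)
  exact (h2 V V).1 _ _ f₁ a4

end Pool.Agent.Tate.Idx
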