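import Pool.Agent.Lib.Tate.Idx.Spec

/-!
# C42, block Idx: paths (task of helper35, by helper77)
-/

set_option autoImplicit false

open Set Filter Topology

noncomputable section

namespace Pool.Agent.Tate.Idx

/-- **B3.** Paths. -/
theorem pB3 (hI1 : S_I1) (hB1 : S_B1) : S_B3 := by
  intro V W _ _ _ _ _ gV gW T z hT hex h0
  have hex' : ∀ s : Icc (0 : ℝ) 1, ∃ w, HasInd gV gW (T s) w := fun s => hex s s.2
  choose w hw using hex'
  have hTc : Continuous fun s : Icc (0 : ℝ) 1 => T s := continuousOn_iff_continuous_restrict.1 hT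
  have hloc : IsLocallyConstant w := by
    rw [IsLocallyConstant.iff_eventually_eq]
    intro s
    obtain ⟨S, hS, hwS⟩ := hw s
    have hc : Continuous fun s' : Icc (0 : ℝ) 1 => ‖S ∘L (T s' - T s)‖ :=
      (continuous_const.clm_comp (hTc.sub continuous_const)).norm
    have h1 : ∀ᶠ s' : Icc (0 : ℝ) 1 in 𝓝 s, ‖S ∘L (T s' - T s)‖ < 1 := by
      refine (hc.tendsto s).eventually (Iio_mem_nhds ?_)
      rw [sub_self, ContinuousLinearMap.comp_zero, norm_zero]
      exact one_pos
    filter_upwards [h1] with s' hs'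
    obtain ⟨S', hS', -⟩ := hw s'
    have heq : (T s' - T s) ∘L gV = gW ∘L (T s' - T s) := by
      rw [ContinuousLinearMap.sub_comp, ContinuousLinearMap.comp_sub, hS.eT, hS'.eT]
    have h2 := hB1 V W gV gW (T s) (T s' - T s) S hS heq hs'
    rw [add_sub_cancel, ← hwS] at h2
    exact hI1 V W gV gW (T s') _ _ (hw s') h2
  haveI : PreconnectedSpace (Icc (0 : ℝ) 1) := Subtype.preconnectedSpace isPreconnected_Icc
  have h2 := hloc.apply_eq_of_preconnectedSpace (⟨0, by simp⟩ : Icc (0 : ℝ) 1) ⟨1, by simp⟩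
  have h3 := hI1 V W gV gW (T 0) _ _ (hw ⟨0, by simp⟩) h0
  have h4 := hw ⟨1, by simp⟩
  rw [← h2, h3] at h4
  exact h4

end Pool.Agent.Tate.Idx
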