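import Pool.Agent.Lib.Tate.Idx.Spec

/-!
# C42, block Idx, B4: a left parametrix (averaging over the cyclic group of order 4)
-/

set_option autoImplicit false

noncomputable section

namespace Pool.Agent.Tate.Idx

/-- Finite rank: sums of continuous operators. -/
theorem frc_add (h2 : S_T2) {V W : Type} [NormedAddCommGroup V] [NormedSpace ℂ V]
    [NormedAddCommGroup W] [NormedSpace ℂ W] (A B : V →L[ℂ] W) (hA : FR (A : V →ₗ[ℂ] W))
    (hB : FR (B : V →ₗ[ℂ] W)) : FR ((A + B : V →L[ℂ] W) : V →ₗ[ℂ] W) := by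
  have h := (h2 V W).1 (A : V →ₗ[ℂ] W) (B : V →ₗ[ℂ] W) hA hB
  rw [ContinuousLinearMap.toLinearMap_add]
  exact h

/-- Finite rank: multiples of continuous operators. -/
theorem frc_smul (h2 : S_T2) {V W : Type} [NormedAddCommGroup V] [NormedSpace ℂ V]
    [NormedAddCommGroup W] [NormedSpace ℂ W] (c : ℂ) (A : V →L[ℂ] W)
    (hA : FR (A : V →ₗ[ℂ] W)) : FR ((c • A : V →L[ℂ] W) : V →ₗ[ℂ] W) := by
  have h := (h2 V W).2.1 c (A : V →ₗ[ℂ] W) hA
  rw [ContinuousLinearMap.toLinearMap_smul]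
  exact h

/-- Finite rank: composition on the right. -/
theorem frc_compR (h3 : S_T3) {V : Type} [NormedAddCommGroup V] [NormedSpace ℂ V]
    (A B : V →L[ℂ] V) (hA : FR (A : V →ₗ[ℂ] V)) :
    FR ((A ∘L B : V →L[ℂ] V) : V →ₗ[ℂ] V) :=
  (h3 V V (A : V →ₗ[ℂ] V) (B : V →ₗ[ℂ] V) hA).1

/-- Finite rank: composition on the left. -/
theorem frc_compL (h3 : S_T3) {V : Type} [NormedAddCommGroup V] [NormedSpace ℂ V]
    (A B : V →L[ℂ] V) (hA : FR (A : V →ₗ[ℂ] V)) :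
    FR ((B ∘L A : V →L[ℂ] V) : V →ₗ[ℂ] V) :=
  (h3 V V (A : V →ₗ[ℂ] V) (B : V →ₗ[ℂ] V) hA).2.1

/-- The average of an operator. -/
def av {V W : Type} [NormedAddCommGroup V] [NormedSpace ℂ V] [NormedAddCommGroup W]
    [NormedSpace ℂ W] (g : V →L[ℂ] V) (h : W →L[ℂ] W) (X : W →L[ℂ] V) : W →L[ℂ] V :=
  (4⁻¹ : ℂ) • (X + g ∘L (X ∘L (h ^ 3)) + (g ^ 2) ∘L (X ∘L (h ^ 2)) + (g ^ 3) ∘L (X ∘L h))

section
variable {V W : Type} [NormedAddCommGroup V] [NormedSpace ℂ V] [NormedAddCommGroup W]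
    [NormedSpace ℂ W]

theorem av_apply (g : V →L[ℂ] V) (h : W →L[ℂ] W) (X : W →L[ℂ] V) (w : W) :
    av g h X w = (4⁻¹ : ℂ) • (X w + g (X (h (h (h w)))) + g (g (X (h (h w)))) +
      g (g (g (X (h w))))) := by
  have e3 : (h ^ 3) w = h (h (h w)) := by
    rw [pow_succ, pow_succ, pow_one]; rfl
  have e2 : (h ^ 2) w = h (h w) := by
    rw [pow_succ, pow_one]; rfl
  have f3 : ∀ v : V, (g ^ 3) v = g (g (g v)) := by
    intro v; rw [pow_succ, pow_succ, pow_one]; rfl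
  have f2 : ∀ v : V, (g ^ 2) v = g (g v) := by
    intro v; rw [pow_succ, pow_one]; rfl
  simp only [av, ContinuousLinearMap.smul_apply, ContinuousLinearMap.add_apply,
    ContinuousLinearMap.comp_apply, e3, e2, f3, f2]

theorem pow4_apply {g : V →L[ℂ] V} (hg : g ^ 4 = 1) (v : V) : g (g (g (g v))) = v := by
  have h : (g ^ 4) v = v := by rw [hg]; rfl
  rw [pow_succ, pow_succ, pow_succ, pow_one] at h
  exact h

theorem av_equiv {g : V →L[ℂ] V} {h : W →L[ℂ] W} (hg : g ^ 4 = 1) (hh : h ^ 4 = 1)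
    (X : W →L[ℂ] V) : av g h X ∘L h = g ∘L av g h X := by
  ext w
  rw [ContinuousLinearMap.comp_apply, ContinuousLinearMap.comp_apply, av_apply, av_apply,
    map_smul, map_add, map_add, map_add, pow4_apply hh, pow4_apply hg]
  congr 1
  abel

theorem av_norm {g : V →L[ℂ] V} {h : W →L[ℂ] W} (hg : ‖g‖ ≤ 1) (hh : ‖h‖ ≤ 1)
    (X : W →L[ℂ] V) : ‖av g h X‖ ≤ ‖X‖ := by
  have b1 : ∀ v : V, ‖g v‖ ≤ ‖v‖ := fun v => by
    have := g.le_of_opNorm_le hg v
    simpa using this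
  have b2 : ∀ w : W, ‖h w‖ ≤ ‖w‖ := fun v => by
    have := h.le_of_opNorm_le hh v
    simpa using this
  have b3 : ∀ w : W, ‖X w‖ ≤ ‖X‖ * ‖w‖ := X.le_opNorm
  have hX := norm_nonneg X
  refine ContinuousLinearMap.opNorm_le_bound _ hX fun w => ?_
  rw [av_apply, norm_smul]
  have n0 : ‖(4⁻¹ : ℂ)‖ = 4⁻¹ := by norm_num
  rw [n0]
  have c1 : ‖X (h w)‖ ≤ ‖X‖ * ‖w‖ :=
    (b3 _).trans (mul_le_mul_of_nonneg_left (b2 w) hX)
  have c2 : ‖X (h (h w))‖ ≤ ‖X‖ * ‖w‖ :=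
    (b3 _).trans (mul_le_mul_of_nonneg_left ((b2 _).trans (b2 w)) hX)
  have c3 : ‖X (h (h (h w)))‖ ≤ ‖X‖ * ‖w‖ :=
    (b3 _).trans (mul_le_mul_of_nonneg_left ((b2 _).trans ((b2 _).trans (b2 w))) hX)
  have d1 : ‖g (X (h (h (h w))))‖ ≤ ‖X‖ * ‖w‖ := (b1 _).trans c3
  have d2 : ‖g (g (X (h (h w))))‖ ≤ ‖X‖ * ‖w‖ := (b1 _).trans ((b1 _).trans c2)
  have d3 : ‖g (g (g (X (h w))))‖ ≤ ‖X‖ * ‖w‖ := (b1 _).trans ((b1 _).trans ((b1 _).trans c1))
  have s1 := norm_add_le (X w + g (X (h (h (h w)))) + g (g (X (h (h w))))) (g (g (g (X (h w)))))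
  have s2 := norm_add_le (X w + g (X (h (h (h w))))) (g (g (X (h (h w)))))
  have s3 := norm_add_le (X w) (g (X (h (h (h w)))))
  have s4 := b3 w
  linarith

theorem av_add (g : V →L[ℂ] V) (h : W →L[ℂ] W) (X Y : W →L[ℂ] V) :
    av g h (X + Y) = av g h X + av g h Y := by
  ext w
  rw [ContinuousLinearMap.add_apply, av_apply, av_apply, av_apply]
  simp only [ContinuousLinearMap.add_apply, map_add, ← smul_add]
  congr 1
  abel

theorem av_sub (g : V →L[ℂ] V) (h : W →L[ℂ] W) (X Y : W →L[ℂ] V) :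
    av g h (X - Y) = av g h X - av g h Y := by
  have e := av_add g h (X - Y) Y
  rw [sub_add_cancel] at e
  rw [e, add_sub_cancel_right]

theorem av_one {g : V →L[ℂ] V} (hg : g ^ 4 = 1) : av g g (1 : V →L[ℂ] V) = 1 := by
  ext v
  rw [av_apply]
  simp only [ContinuousLinearMap.one_apply]
  rw [pow4_apply hg]
  have : v + v + v + v = (4 : ℂ) • v := by
    rw [show (4 : ℂ) = 1 + 1 + 1 + 1 by norm_num, add_smul, add_smul, add_smul, one_smul]
  rw [this, smul_smul]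
  norm_num

theorem av_FR (h2 : S_T2) (h3 : S_T3) (g h : V →L[ℂ] V) (F : V →L[ℂ] V)
    (hF : FR (F : V →ₗ[ℂ] V)) : FR ((av g h F : V →L[ℂ] V) : V →ₗ[ℂ] V) := by
  have k : ∀ A B : V →L[ℂ] V, FR ((A ∘L (F ∘L B) : V →L[ℂ] V) : V →ₗ[ℂ] V) :=
    fun A B => frc_compL h3 (F ∘L B) A (frc_compR h3 F B hF)
  unfold av
  exact frc_smul h2 _ _ (frc_add h2 _ _ (frc_add h2 _ _ (frc_add h2 _ _ hF (k _ _)) (k _ _))
    (k _ _))

/-- Averaging and right multiplication with an equivariant operator. -/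
theorem av_compR {g : V →L[ℂ] V} {h : W →L[ℂ] W} (X : W →L[ℂ] V) (T : V →L[ℂ] W)
    (hT : T ∘L g = h ∘L T) : av g g (X ∘L T) = av g h X ∘L T := by
  have e : ∀ v, T (g v) = h (T v) := fun v => by
    have := congrArg (fun A : V →L[ℂ] W => A v) hT
    exact this
  ext v
  rw [ContinuousLinearMap.comp_apply, av_apply, av_apply]
  simp only [ContinuousLinearMap.comp_apply, e]

/-- Averaging and left multiplication with an equivariant operator. -/
theorem av_compL {g : V →L[ℂ] V} {h : W →L[ℂ] W} (X : W →L[ℂ] V) (T : V →L[ℂ] W)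
    (hT : T ∘L g = h ∘L T) : av h h (T ∘L X) = T ∘L av g h X := by
  have e : ∀ v, T (g v) = h (T v) := fun v => by
    have := congrArg (fun A : V →L[ℂ] W => A v) hT
    exact this
  ext w
  rw [ContinuousLinearMap.comp_apply, av_apply, av_apply]
  simp only [ContinuousLinearMap.comp_apply, map_smul, map_add, e]

end

/-- **B4.** A left parametrix. -/
theorem pB4 (h2 : S_T2) (h3 : S_T3) : S_B4 := by
  intro V W _ _ _ _ _ gV gW T S A K hgV hgW nV nW hT hA hK hST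
  obtain ⟨F, hF, hFn⟩ := hK ((1 - ‖A‖) / 2) (by linarith)
  set B : V →L[ℂ] V := A + (K - F) with hB
  have hBn : ‖B‖ < 1 := by
    have := norm_add_le A (K - F)
    have e : (1 - ‖A‖) / 2 < 1 - ‖A‖ := by linarith
    rw [hB]
    linarith
  have hST' : S ∘L T = 1 - (B + F) := by
    rw [hST, hB]; abel
  have hav : av gV gW S ∘L T = 1 - (av gV gV B + av gV gV F) := by
    rw [← av_compR S T hT, hST', av_sub, av_one hgV, av_add]
  have hBa : ‖av gV gV B‖ < 1 := (av_norm nV nV B).trans_lt hBn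
  let U : (V →L[ℂ] V)ˣ := Units.oneSub (av gV gV B) hBa
  have hU : (U : V →L[ℂ] V) = 1 - av gV gV B := rfl
  have hUc : Commute (U : V →L[ℂ] V) gV := by
    have e := av_equiv hgV hgV B
    show (U : V →L[ℂ] V) * gV = gV * (U : V →L[ℂ] V)
    rw [hU, sub_mul, mul_sub, one_mul, mul_one]
    congr 1
  have hUc' : Commute (↑U⁻¹ : V →L[ℂ] V) gV := Commute.units_inv_left hUc
  refine ⟨(↑U⁻¹ : V →L[ℂ] V) ∘L av gV gW S, ?_, ?_⟩
  · rw [ContinuousLinearMap.comp_assoc, av_equiv hgV hgW S, ← ContinuousLinearMap.comp_assoc,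
      ← ContinuousLinearMap.comp_assoc]
    exact congrArg (fun Z : V →L[ℂ] V => Z ∘L av gV gW S) hUc'
  · have e : (1 : V →L[ℂ] V) - ((↑U⁻¹ : V →L[ℂ] V) ∘L av gV gW S) ∘L T =
        (↑U⁻¹ : V →L[ℂ] V) ∘L av gV gV F := by
      rw [ContinuousLinearMap.comp_assoc, hav]
      have e1 : (1 : V →L[ℂ] V) - (av gV gV B + av gV gV F) = (U : V →L[ℂ] V) - av gV gV F := by
        rw [hU]; abel
      rw [e1]
      have e2 : (↑U⁻¹ : V →L[ℂ] V) ∘L ((U : V →L[ℂ] V) - av gV gV F) =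
          (↑U⁻¹ : V →L[ℂ] V) * (U : V →L[ℂ] V) - (↑U⁻¹ : V →L[ℂ] V) * av gV gV F :=
        mul_sub _ _ _
      rw [e2, Units.inv_mul]
      simp only [sub_sub_cancel]
      rfl
    rw [e]
    exact frc_compL h3 _ _ (av_FR h2 h3 gV gV F hF)

end Pool.Agent.Tate.Idx
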