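import Pool.Agent.Lib.Tate.Idx.Spec

/-!
# C42, block Idx: the ideal Cpt (helper12)
-/

set_option autoImplicit false

open Set Filter Topology

noncomputable section

namespace Pool.Agent.Tate.Idx

namespace Cpx

variable {V W X : Type} [NormedAddCommGroup V] [NormedSpace ℂ V] [NormedAddCommGroup W]
  [NormedSpace ℂ W] [NormedAddCommGroup X] [NormedSpace ℂ X]

theorem cl {A : V →L[ℂ] W} (B : W →L[ℂ] X) (h : FR (A : V →ₗ[ℂ] W)) :
    FR ((B ∘L A : V →L[ℂ] X) : V →ₗ[ℂ] X) := by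
  have : FR ((B : W →ₗ[ℂ] X) ∘ₗ (A : V →ₗ[ℂ] W)) := by
    unfold FR at *
    rw [LinearMap.range_comp]
    infer_instance
  exact this

theorem cr (A : V →L[ℂ] W) {B : W →L[ℂ] X} (h : FR (B : W →ₗ[ℂ] X)) :
    FR ((B ∘L A : V →L[ℂ] X) : V →ₗ[ℂ] X) := by
  have : FR ((B : W →ₗ[ℂ] X) ∘ₗ (A : V →ₗ[ℂ] W)) := by
    unfold FR at *
    exact Submodule.finiteDimensional_of_le (LinearMap.range_comp_le_range _ _)
  exact this

theorem num {a b ε : ℝ} (ha : 0 ≤ a) (hε : 0 < ε) (hb : b ≤ ε / (a + 1)) : a * b ≤ ε := by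
  have h1 : 0 < a + 1 := by linarith
  rw [le_div_iff₀ h1] at hb
  by_cases h : b ≤ 0
  · exact (mul_nonpos_of_nonneg_of_nonpos ha h).trans hε.le
  · push Not at h
    nlinarith

end Cpx

open Cpx in
theorem pCp (h1 : S_T2) (h2 : S_T3) : S_Cp := by
  intro V W X _ _ _ _ _ _
  refine ⟨fun A B hA hB ε hε => ?_, fun c A hA ε hε => ?_,
    fun A hA ε hε => ⟨A, hA, by rw [sub_self, norm_zero]; exact hε.le⟩,
    fun A B hA ε hε => ?_, fun A B hB ε hε => ?_⟩
  · obtain ⟨F, hF, h⟩ := hA (ε / 2) (by positivity)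
    obtain ⟨G, hG, h'⟩ := hB (ε / 2) (by positivity)
    refine ⟨F + G, (h1 V W).1 _ _ hF hG, ?_⟩
    rw [add_sub_add_comm]
    exact (norm_add_le _ _).trans (by linarith)
  · obtain ⟨F, hF, h⟩ := hA (ε / (‖c‖ + 1)) (by positivity)
    refine ⟨c • F, (h1 V W).2.1 c _ hF, ?_⟩
    rw [← smul_sub, norm_smul]
    exact num (norm_nonneg c) hε h
  · obtain ⟨F, hF, h⟩ := hA (ε / (‖B‖ + 1)) (by positivity)
    refine ⟨B ∘L F, cl B hF, ?_⟩
    rw [← ContinuousLinearMap.comp_sub]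
    exact (ContinuousLinearMap.opNorm_comp_le _ _).trans (num (norm_nonneg B) hε h)
  · obtain ⟨F, hF, h⟩ := hB (ε / (‖A‖ + 1)) (by positivity)
    refine ⟨F ∘L A, cr A hF, ?_⟩
    rw [← ContinuousLinearMap.sub_comp]
    refine (ContinuousLinearMap.opNorm_comp_le _ _).trans ?_
    rw [mul_comm]
    exact num (norm_nonneg A) hε h

end Pool.Agent.Tate.Idx
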