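import Pool.Agent.Lib.Tate.Idx.Spec

/-!
# C42, block Idx: the index does not depend on the parametrix (helper12)
-/

set_option autoImplicit false

open Set Filter Topology

noncomputable section

namespace Pool.Agent.Tate.Idx

namespace I1x

variable {V W X : Type} [NormedAddCommGroup V] [NormedSpace ℂ V] [NormedAddCommGroup W]
  [NormedSpace ℂ W] [NormedAddCommGroup X] [NormedSpace ℂ X]

theorem cl {A : V →L[ℂ] W} (B : W →L[ℂ] X) (h : FR (A : V →ₗ[ℂ] W)) :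
    FR ((B ∘L A : V →L[ℂ] X) : V →ₗ[ℂ] X) := by
  have : FR ((B : W →ₗ[ℂ] X) ∘ₗ (A : V →ₗ[ℂ] W)) := by
    unfold FR at *
    rw [LinearMap.range_comp]
    infer_instance
  exact this

theorem cr (A : V →L[ℂ] W) {B : W →L[ℂ] X} (h : FR (B : W →ₗ[ℂ] X)) :
    FR ((B ∘L A : V →L[ℂ] X) : V →ₗ[ℂ] X) := by
  have : FR ((B : W →ₗ[ℂ] X) ∘ₗ (A : V →ₗ[ℂ] W)) := by
    unfold FR at *
    exact Submodule.finiteDimensional_of_le (LinearMap.range_comp_le_range _ _)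
  exact this

theorem fsub (h1 : S_T2) {A B : V →L[ℂ] W} (hA : FR (A : V →ₗ[ℂ] W)) (hB : FR (B : V →ₗ[ℂ] W)) :
    FR ((A - B : V →L[ℂ] W) : V →ₗ[ℂ] W) := by
  have h := (h1 V W).1 _ _ hA ((h1 V W).2.1 (-1) _ hB)
  have e : (A : V →ₗ[ℂ] W) + (-1 : ℂ) • (B : V →ₗ[ℂ] W) = ((A - B : V →L[ℂ] W) : V →ₗ[ℂ] W) := by
    ext x
    simp [sub_eq_add_neg]
  rwa [e] at h

theorem tadd (h1 : S_T2) {A B : V →L[ℂ] V} (hA : FR (A : V →ₗ[ℂ] V)) (hB : FR (B : V →ₗ[ℂ] V)) :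
    ftr ((A + B : V →L[ℂ] V) : V →ₗ[ℂ] V) = ftr (A : V →ₗ[ℂ] V) + ftr (B : V →ₗ[ℂ] V) :=
  (h1 V V).2.2.1 _ _ hA hB

theorem tcomm (h2 : S_T3) (A : V →L[ℂ] W) (B : W →L[ℂ] V) (hA : FR (A : V →ₗ[ℂ] W)) :
    ftr ((A ∘L B : W →L[ℂ] W) : W →ₗ[ℂ] W) = ftr ((B ∘L A : V →L[ℂ] V) : V →ₗ[ℂ] V) :=
  (h2 V W A B hA).2.2

end I1x

open I1x in
theorem pI1 (h1 : S_T2) (h2 : S_T3) : S_I1 := by
  intro V W _ _ _ _ gV gW T z z' hz hz'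
  obtain ⟨S, hS, rfl⟩ := hz
  obtain ⟨S', hS', rfl⟩ := hz'
  have hD : FR ((S' - S : W →L[ℂ] V) : W →ₗ[ℂ] V) := by
    have e : S' - S = S' ∘L (1 - T ∘L S) - (1 - S' ∘L T) ∘L S := by
      ext x
      simp
    rw [e]
    exact fsub h1 (cl S' hS.fq) (cr S hS'.fp)
  have f1 : FR ((gV ∘L (1 - S' ∘L T) : V →L[ℂ] V) : V →ₗ[ℂ] V) := cl gV hS'.fp
  have f2 : FR ((gW ∘L (1 - T ∘L S') : W →L[ℂ] W) : W →ₗ[ℂ] W) := cl gW hS'.fq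
  have f3 : FR ((gV ∘L (S' - S) : W →L[ℂ] V) : W →ₗ[ℂ] V) := cl gV hD
  have f4 : FR (((gV ∘L (S' - S)) ∘L T : V →L[ℂ] V) : V →ₗ[ℂ] V) := cr T f3
  have f5 : FR ((T ∘L (gV ∘L (S' - S)) : W →L[ℂ] W) : W →ₗ[ℂ] W) := cl T f3
  have e1 : gV ∘L (1 - S ∘L T) = gV ∘L (1 - S' ∘L T) + (gV ∘L (S' - S)) ∘L T := by
    ext x
    simp
  have e2 : gW ∘L (1 - T ∘L S) = gW ∘L (1 - T ∘L S') + T ∘L (gV ∘L (S' - S)) := by
    rw [← ContinuousLinearMap.comp_assoc, hS.eT]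
    ext x
    simp
  unfold ind
  rw [e1, e2, tadd h1 f1 f4, tadd h1 f2 f5, tcomm h2 _ T f3]
  ring

end Pool.Agent.Tate.Idx
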