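import Pool.Agent.Lib.Tate.Idx.Spec

/-!
# C42 (MP_071d69_gt), block Idx: the index of compositions
-/

set_option autoImplicit false

noncomputable section

namespace Pool.Agent.Tate.Idx

namespace I2

section

variable {V W X : Type} [AddCommGroup V] [Module ℂ V] [AddCommGroup W] [Module ℂ W]
  [AddCommGroup X] [Module ℂ X]

theorem frl (A : V →ₗ[ℂ] W) (B : W →ₗ[ℂ] X) (h : FR A) : FR (B ∘ₗ A) := by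
  unfold FR at *
  rw [LinearMap.range_comp]
  infer_instance

theorem frr (A : W →ₗ[ℂ] X) (B : V →ₗ[ℂ] W) (h : FR A) : FR (A ∘ₗ B) := by
  unfold FR at *
  exact Submodule.finiteDimensional_of_le (LinearMap.range_comp_le_range B A)

theorem frsub (h1 : S_T2) (A B : V →ₗ[ℂ] W) (hA : FR A) (hB : FR B) : FR (A - B) := by
  have h : A - B = A + (-1 : ℂ) • B := by rw [neg_one_smul, sub_eq_add_neg]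
  rw [h]
  exact (h1 V W).1 _ _ hA ((h1 V W).2.1 _ _ hB)

theorem ftrsub (h1 : S_T2) (A B : V →ₗ[ℂ] V) (hA : FR A) (hB : FR B) :
    ftr (A - B) = ftr A - ftr B := by
  have h : A - B = A + (-1 : ℂ) • B := by rw [neg_one_smul, sub_eq_add_neg]
  rw [h, (h1 V V).2.2.1 _ _ hA ((h1 V V).2.1 _ _ hB), (h1 V V).2.2.2 _ _ hB]
  ring

theorem core (h1 : S_T2) (h2 : S_T3) (gV : V →ₗ[ℂ] V) (gW : W →ₗ[ℂ] W) (gX : X →ₗ[ℂ] X)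
    (T : V →ₗ[ℂ] W) (S : W →ₗ[ℂ] V) (T' : W →ₗ[ℂ] X) (S' : X →ₗ[ℂ] W)
    (eS : S ∘ₗ gW = gV ∘ₗ S) (eT' : T' ∘ₗ gW = gX ∘ₗ T') (eS' : S' ∘ₗ gX = gW ∘ₗ S')
    (fp : FR (1 - S ∘ₗ T)) (fq : FR (1 - T ∘ₗ S)) (fp' : FR (1 - S' ∘ₗ T'))
    (fq' : FR (1 - T' ∘ₗ S')) :
    FR (1 - (S ∘ₗ S') ∘ₗ (T' ∘ₗ T)) ∧ FR (1 - (T' ∘ₗ T) ∘ₗ (S ∘ₗ S')) ∧
      ftr (gV ∘ₗ (1 - (S ∘ₗ S') ∘ₗ (T' ∘ₗ T))) - ftr (gX ∘ₗ (1 - (T' ∘ₗ T) ∘ₗ (S ∘ₗ S'))) =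
        (ftr (gV ∘ₗ (1 - S ∘ₗ T)) - ftr (gW ∘ₗ (1 - T ∘ₗ S))) +
          (ftr (gW ∘ₗ (1 - S' ∘ₗ T')) - ftr (gX ∘ₗ (1 - T' ∘ₗ S'))) := by
  have cS : ∀ x, S (gW x) = gV (S x) := fun x => LinearMap.congr_fun eS x
  have cT' : ∀ x, T' (gW x) = gX (T' x) := fun x => LinearMap.congr_fun eT' x
  have cS' : ∀ x, S' (gX x) = gW (S' x) := fun x => LinearMap.congr_fun eS' x
  have e1 : 1 - (S ∘ₗ S') ∘ₗ (T' ∘ₗ T) = (1 - S ∘ₗ T) + S ∘ₗ ((1 - S' ∘ₗ T') ∘ₗ T) := by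
    ext x
    simp
  have e2 : 1 - (T' ∘ₗ T) ∘ₗ (S ∘ₗ S') = (1 - T' ∘ₗ S') + T' ∘ₗ ((1 - T ∘ₗ S) ∘ₗ S') := by
    ext x
    simp
  have f1 : FR ((1 - S' ∘ₗ T') ∘ₗ T) := frr _ _ fp'
  have f2 : FR ((1 - T ∘ₗ S) ∘ₗ S') := frr _ _ fq
  have e3 : gV ∘ₗ (S ∘ₗ ((1 - S' ∘ₗ T') ∘ₗ T)) = S ∘ₗ (gW ∘ₗ ((1 - S' ∘ₗ T') ∘ₗ T)) := by
    ext x
    simp [cS]
  have e4 : gX ∘ₗ (T' ∘ₗ ((1 - T ∘ₗ S) ∘ₗ S')) = T' ∘ₗ (gW ∘ₗ ((1 - T ∘ₗ S) ∘ₗ S')) := by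
    ext x
    simp [cT']
  have e5 : (gW ∘ₗ ((1 - S' ∘ₗ T') ∘ₗ T)) ∘ₗ S =
      gW ∘ₗ (1 - S' ∘ₗ T') - (gW ∘ₗ (1 - S' ∘ₗ T')) ∘ₗ (1 - T ∘ₗ S) := by
    ext x
    simp
    abel
  have e6 : (gW ∘ₗ ((1 - T ∘ₗ S) ∘ₗ S')) ∘ₗ T' =
      gW ∘ₗ (1 - T ∘ₗ S) - (gW ∘ₗ (1 - T ∘ₗ S)) ∘ₗ (1 - S' ∘ₗ T') := by
    ext x
    simp
    abel
  have e7 : (gW ∘ₗ (1 - S' ∘ₗ T')) ∘ₗ (1 - T ∘ₗ S) =
      (1 - S' ∘ₗ T') ∘ₗ (gW ∘ₗ (1 - T ∘ₗ S)) := by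
    ext x
    simp [cT', cS']
  have t1 := (h2 V W (gW ∘ₗ ((1 - S' ∘ₗ T') ∘ₗ T)) S (frl _ _ f1)).2.2
  have t2 := (h2 X W (gW ∘ₗ ((1 - T ∘ₗ S) ∘ₗ S')) T' (frl _ _ f2)).2.2
  have t3 := (h2 W W (gW ∘ₗ (1 - T ∘ₗ S)) (1 - S' ∘ₗ T') (frl _ _ fq)).2.2
  refine ⟨?_, ?_, ?_⟩
  · rw [e1]; exact (h1 V V).1 _ _ fp (frl _ _ f1)
  · rw [e2]; exact (h1 X X).1 _ _ fq' (frl _ _ f2)
  · rw [e1, e2, LinearMap.comp_add, LinearMap.comp_add,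
      (h1 V V).2.2.1 _ _ (frl _ _ fp) (frl _ _ (frl _ _ f1)),
      (h1 X X).2.2.1 _ _ (frl _ _ fq') (frl _ _ (frl _ _ f2)), e3, e4, ← t1, ← t2, e5, e6,
      ftrsub h1 _ _ (frl _ _ fp') (frr _ _ (frl _ _ fp')),
      ftrsub h1 _ _ (frl _ _ fq) (frr _ _ (frl _ _ fq)), e7, t3]
    ring

end

end I2

open I2 in
theorem pI2 (h1 : S_T2) (h2 : S_T3) : S_I2 := by
  intro V W X _ _ _ _ _ _ gV gW gX T T' z z' hz hz'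
  obtain ⟨S, hS, rfl⟩ := hz
  obtain ⟨S', hS', rfl⟩ := hz'
  obtain ⟨c1, c2, c3⟩ := core h1 h2 (gV : V →ₗ[ℂ] V) (gW : W →ₗ[ℂ] W) (gX : X →ₗ[ℂ] X)
    (T : V →ₗ[ℂ] W) (S : W →ₗ[ℂ] V) (T' : W →ₗ[ℂ] X) (S' : X →ₗ[ℂ] W)
    (LinearMap.ext fun x => DFunLike.congr_fun hS.eS x)
    (LinearMap.ext fun x => DFunLike.congr_fun hS'.eT x)
    (LinearMap.ext fun x => DFunLike.congr_fun hS'.eS x) hS.fp hS.fq hS'.fp hS'.fq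
  refine ⟨S ∘L S', ⟨?_, ?_, c1, c2⟩, c3.symm⟩
  · rw [ContinuousLinearMap.comp_assoc, hS.eT, ← ContinuousLinearMap.comp_assoc, hS'.eT,
      ContinuousLinearMap.comp_assoc]
  · rw [ContinuousLinearMap.comp_assoc, hS'.eS, ← ContinuousLinearMap.comp_assoc, hS.eS,
      ContinuousLinearMap.comp_assoc]

end Pool.Agent.Tate.Idx
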