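import Pool.Agent.Lib.Tate.Idx.Spec

/-!
# C42, block Idx: invertible operators have index 0 (helper12)
-/

set_option autoImplicit false

open Set Filter Topology

noncomputable section

namespace Pool.Agent.Tate.Idx

namespace I4x

variable {V : Type} [AddCommGroup V] [Module ℂ V]

theorem ftr_zero : ftr (0 : V →ₗ[ℂ] V) = 0 := by
  unfold ftr
  have h : ((0 : V →ₗ[ℂ] V).restrict (p := LinearMap.range (0 : V →ₗ[ℂ] V))
    (q := LinearMap.range (0 : V →ₗ[ℂ] V)) fun x _ => LinearMap.mem_range_self 0 x) = 0 := by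
    ext x
    rfl
  rw [h, map_zero]

theorem fr_zero : FR (0 : V →ₗ[ℂ] V) := by
  unfold FR
  rw [LinearMap.range_zero]
  infer_instance

end I4x

theorem pI4 : S_I4 := by
  intro V W _ _ _ _ gV gW T S eT h1 h2
  refine ⟨S, ⟨eT, ?_, ?_, ?_⟩, ?_⟩
  · calc S ∘L gW = S ∘L (gW ∘L (T ∘L S)) := by
          rw [h2]
          ext x
          simp
      _ = (S ∘L (T ∘L gV)) ∘L S := by rw [eT]; rfl
      _ = (S ∘L T) ∘L (gV ∘L S) := rfl
      _ = gV ∘L S := by
          rw [h1]
          ext x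
          simp
  · rw [h1, sub_self]
    exact I4x.fr_zero
  · rw [h2, sub_self]
    exact I4x.fr_zero
  · unfold ind
    rw [h1, h2, sub_self, sub_self, ContinuousLinearMap.comp_zero, ContinuousLinearMap.comp_zero]
    have e1 : ftr ((0 : V →L[ℂ] V) : V →ₗ[ℂ] V) = 0 := I4x.ftr_zero
    have e2 : ftr ((0 : W →L[ℂ] W) : W →ₗ[ℂ] W) = 0 := I4x.ftr_zero
    rw [e1, e2, sub_self]

end Pool.Agent.Tate.Idx
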