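import Pool.Agent.Lib.Tate.Idx.Spec

/-!
# C42 (MP_071d69_gt), block Idx: the index of block triangular operators
-/

set_option autoImplicit false

noncomputable section

namespace Pool.Agent.Tate.Idx

namespace I5

section

variable {V W X : Type} [AddCommGroup V] [Module ℂ V] [AddCommGroup W] [Module ℂ W]
  [AddCommGroup X] [Module ℂ X]

theorem frl (A : V →ₗ[ℂ] W) (B : W →ₗ[ℂ] X) (h : FR A) : FR (B ∘ₗ A) := by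
  unfold FR at *
  rw [LinearMap.range_comp]
  infer_instance

theorem frr (A : W →ₗ[ℂ] X) (B : V →ₗ[ℂ] W) (h : FR A) : FR (A ∘ₗ B) := by
  unfold FR at *
  exact Submodule.finiteDimensional_of_le (LinearMap.range_comp_le_range B A)

end

end I5

open I5 in
theorem pI5 (h1 : S_T4) : S_I5 := by
  intro V₁ V₂ W₁ W₂ _ _ _ _ _ _ _ _ g₁ g₂ k₁ k₂ A B D T z w hz hw hB hT
  obtain ⟨S₁, P₁, rfl⟩ := hz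
  obtain ⟨S₂, P₂, rfl⟩ := hw
  have a1 : ∀ x, A (g₁ x) = k₁ (A x) := fun x => DFunLike.congr_fun P₁.eT x
  have a2 : ∀ x, S₁ (k₁ x) = g₁ (S₁ x) := fun x => DFunLike.congr_fun P₁.eS x
  have b1 : ∀ x, D (g₂ x) = k₂ (D x) := fun x => DFunLike.congr_fun P₂.eT x
  have b2 : ∀ x, S₂ (k₂ x) = g₂ (S₂ x) := fun x => DFunLike.congr_fun P₂.eS x
  have b3 : ∀ x, B (g₂ x) = k₁ (B x) := fun x => DFunLike.congr_fun hB x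
  set S : W₁ × W₂ →L[ℂ] V₁ × V₂ :=
    (S₁ ∘L ContinuousLinearMap.fst ℂ W₁ W₂ -
      S₁ ∘L B ∘L S₂ ∘L ContinuousLinearMap.snd ℂ W₁ W₂).prod
      (S₂ ∘L ContinuousLinearMap.snd ℂ W₁ W₂) with hS
  have sS : ∀ x y, S (x, y) = (S₁ x - S₁ (B (S₂ y)), S₂ y) := fun x y => rfl
  have sp : ∀ x y, ((1 - S ∘L T : V₁ × V₂ →L[ℂ] V₁ × V₂) : V₁ × V₂ →ₗ[ℂ] V₁ × V₂) (x, y) =
      (((1 - S₁ ∘L A : V₁ →L[ℂ] V₁) : V₁ →ₗ[ℂ] V₁) x +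
        ((-((S₁ : W₁ →ₗ[ℂ] V₁) ∘ₗ (B : V₂ →ₗ[ℂ] W₁))) ∘ₗ
          ((1 - S₂ ∘L D : V₂ →L[ℂ] V₂) : V₂ →ₗ[ℂ] V₂)) y,
        ((1 - S₂ ∘L D : V₂ →L[ℂ] V₂) : V₂ →ₗ[ℂ] V₂) y) := by
    intro x y
    have e1 : ((1 - S ∘L T : V₁ × V₂ →L[ℂ] V₁ × V₂) : V₁ × V₂ →ₗ[ℂ] V₁ × V₂) (x, y) =
      (x, y) - S (T (x, y)) := rfl
    rw [e1, hT, sS]
    ext
    · simp
      abel
    · simp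
  have sq : ∀ x y, ((1 - T ∘L S : W₁ × W₂ →L[ℂ] W₁ × W₂) : W₁ × W₂ →ₗ[ℂ] W₁ × W₂) (x, y) =
      (((1 - A ∘L S₁ : W₁ →L[ℂ] W₁) : W₁ →ₗ[ℂ] W₁) x +
        (((1 - A ∘L S₁ : W₁ →L[ℂ] W₁) : W₁ →ₗ[ℂ] W₁) ∘ₗ
          (-((B : V₂ →ₗ[ℂ] W₁) ∘ₗ (S₂ : W₂ →ₗ[ℂ] V₂)))) y,
        ((1 - D ∘L S₂ : W₂ →L[ℂ] W₂) : W₂ →ₗ[ℂ] W₂) y) := by
    intro x y
    have e1 : ((1 - T ∘L S : W₁ × W₂ →L[ℂ] W₁ × W₂) : W₁ × W₂ →ₗ[ℂ] W₁ × W₂) (x, y) =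
      (x, y) - T (S (x, y)) := rfl
    rw [e1, sS, hT]
    ext
    · simp
      abel
    · simp
  have m1 : ∀ (u : V₁ × V₂), (g₁.prodMap g₂) u = (g₁ u.1, g₂ u.2) := fun u => rfl
  have m2 : ∀ (u : W₁ × W₂), (k₁.prodMap k₂) u = (k₁ u.1, k₂ u.2) := fun u => rfl
  have t1 := h1 V₁ V₂ ((g₁ ∘L (1 - S₁ ∘L A) : V₁ →L[ℂ] V₁) : V₁ →ₗ[ℂ] V₁)
    ((g₂ ∘L (1 - S₂ ∘L D) : V₂ →L[ℂ] V₂) : V₂ →ₗ[ℂ] V₂)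
    ((g₁ : V₁ →ₗ[ℂ] V₁) ∘ₗ ((-((S₁ : W₁ →ₗ[ℂ] V₁) ∘ₗ (B : V₂ →ₗ[ℂ] W₁))) ∘ₗ
          ((1 - S₂ ∘L D : V₂ →L[ℂ] V₂) : V₂ →ₗ[ℂ] V₂)))
    (((g₁.prodMap g₂) ∘L (1 - S ∘L T) : V₁ × V₂ →L[ℂ] V₁ × V₂) : V₁ × V₂ →ₗ[ℂ] V₁ × V₂)
    (frl _ _ P₁.fp) (frl _ _ P₂.fp) (frl _ _ (frl _ _ P₂.fp)) (by
      intro x y
      have e1 : (((g₁.prodMap g₂) ∘L (1 - S ∘L T) : V₁ × V₂ →L[ℂ] V₁ × V₂) :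
        V₁ × V₂ →ₗ[ℂ] V₁ × V₂) (x, y) = (g₁.prodMap g₂)
        (((1 - S ∘L T : V₁ × V₂ →L[ℂ] V₁ × V₂) : V₁ × V₂ →ₗ[ℂ] V₁ × V₂) (x, y)) := rfl
      rw [e1, sp, m1]
      ext
      · simp only [map_add]
        rfl
      · rfl)
  have t2 := h1 W₁ W₂ ((k₁ ∘L (1 - A ∘L S₁) : W₁ →L[ℂ] W₁) : W₁ →ₗ[ℂ] W₁)
    ((k₂ ∘L (1 - D ∘L S₂) : W₂ →L[ℂ] W₂) : W₂ →ₗ[ℂ] W₂)
    ((k₁ : W₁ →ₗ[ℂ] W₁) ∘ₗ (((1 - A ∘L S₁ : W₁ →L[ℂ] W₁) : W₁ →ₗ[ℂ] W₁) ∘ₗ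
          (-((B : V₂ →ₗ[ℂ] W₁) ∘ₗ (S₂ : W₂ →ₗ[ℂ] V₂)))))
    (((k₁.prodMap k₂) ∘L (1 - T ∘L S) : W₁ × W₂ →L[ℂ] W₁ × W₂) : W₁ × W₂ →ₗ[ℂ] W₁ × W₂)
    (frl _ _ P₁.fq) (frl _ _ P₂.fq) (frl _ _ (frr _ _ P₁.fq)) (by
      intro x y
      have e1 : (((k₁.prodMap k₂) ∘L (1 - T ∘L S) : W₁ × W₂ →L[ℂ] W₁ × W₂) :
        W₁ × W₂ →ₗ[ℂ] W₁ × W₂) (x, y) = (k₁.prodMap k₂)
        (((1 - T ∘L S : W₁ × W₂ →L[ℂ] W₁ × W₂) : W₁ × W₂ →ₗ[ℂ] W₁ × W₂) (x, y)) := rfl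
      rw [e1, sq, m2]
      ext
      · simp only [map_add]
        rfl
      · rfl)
  refine ⟨S, ⟨?_, ?_, ?_, ?_⟩, ?_⟩
  · refine DFunLike.ext _ _ fun u => ?_
    obtain ⟨x, y⟩ := u
    have e1 : (T ∘L (g₁.prodMap g₂)) (x, y) = T (g₁ x, g₂ y) := rfl
    have e2 : ((k₁.prodMap k₂) ∘L T) (x, y) = (k₁.prodMap k₂) (T (x, y)) := rfl
    rw [e1, e2, hT, hT, m2, a1, b3, b1, map_add]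
  · refine DFunLike.ext _ _ fun u => ?_
    obtain ⟨x, y⟩ := u
    have e1 : (S ∘L (k₁.prodMap k₂)) (x, y) = S (k₁ x, k₂ y) := rfl
    have e2 : ((g₁.prodMap g₂) ∘L S) (x, y) = (g₁.prodMap g₂) (S (x, y)) := rfl
    rw [e1, e2, sS, sS, m1, a2, b2, b3, a2, map_sub]
  · exact (h1 V₁ V₂ _ _ _ _ P₁.fp P₂.fp (frl _ _ P₂.fp) sp).1
  · exact (h1 W₁ W₂ _ _ _ _ P₁.fq P₂.fq (frr _ _ P₁.fq) sq).1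
  · unfold ind
    rw [t1.2, t2.2]
    ring

end Pool.Agent.Tate.Idx
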