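import Pool.Agent.Lib.Tate.Idx.Spec

/-!
# C42, block Idx: multiplication of g with a number (helper12)
-/

set_option autoImplicit false

open Set Filter Topology

noncomputable section

namespace Pool.Agent.Tate.Idx

namespace I6x

variable {V W X : Type} [NormedAddCommGroup V] [NormedSpace ℂ V] [NormedAddCommGroup W]
  [NormedSpace ℂ W] [NormedAddCommGroup X] [NormedSpace ℂ X]

theorem cl {A : V →L[ℂ] W} (B : W →L[ℂ] X) (h : FR (A : V →ₗ[ℂ] W)) :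
    FR ((B ∘L A : V →L[ℂ] X) : V →ₗ[ℂ] X) := by
  have : FR ((B : W →ₗ[ℂ] X) ∘ₗ (A : V →ₗ[ℂ] W)) := by
    unfold FR at *
    rw [LinearMap.range_comp]
    infer_instance
  exact this

end I6x

theorem pI6 (h1 : S_T2) : S_I6 := by
  intro V W _ _ _ _ gV gW T z c hz
  obtain ⟨S, hS, rfl⟩ := hz
  refine ⟨S, ⟨?_, ?_, hS.fp, hS.fq⟩, ?_⟩
  · rw [ContinuousLinearMap.comp_smul, ContinuousLinearMap.smul_comp, hS.eT]
  · rw [ContinuousLinearMap.comp_smul, ContinuousLinearMap.smul_comp, hS.eS]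
  · unfold ind
    rw [ContinuousLinearMap.smul_comp, ContinuousLinearMap.smul_comp]
    have t1 : ftr ((c • (gV ∘L (1 - S ∘L T)) : V →L[ℂ] V) : V →ₗ[ℂ] V) =
        c * ftr ((gV ∘L (1 - S ∘L T) : V →L[ℂ] V) : V →ₗ[ℂ] V) :=
      (h1 V V).2.2.2 c _ (I6x.cl gV hS.fp)
    have t2 : ftr ((c • (gW ∘L (1 - T ∘L S)) : W →L[ℂ] W) : W →ₗ[ℂ] W) =
        c * ftr ((gW ∘L (1 - T ∘L S) : W →L[ℂ] W) : W →ₗ[ℂ] W) :=
      (h1 W W).2.2.2 c _ (I6x.cl gW hS.fq)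
    rw [t1, t2]
    ring

end Pool.Agent.Tate.Idx
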