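import Pool.Agent.Lib.Tate.Idx.Spec

/-!
# C42, block Idx: integrality of the index (helper12)
-/

set_option autoImplicit false

open Set Filter Topology

noncomputable section

namespace Pool.Agent.Tate.Idx

theorem pI7 (h1 : S_T6) : S_I7 := by
  intro V W _ _ _ _ gV gW T z h4 h4' hz
  obtain ⟨S, hS, rfl⟩ := hz
  refine h1 V W gV gW T S ?_ ?_ ?_ ?_ hS.fp hS.fq
  · rw [← ContinuousLinearMap.toLinearMap_pow, h4]
    rfl
  · rw [← ContinuousLinearMap.toLinearMap_pow, h4']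
    rfl
  · exact congrArg (fun A : V →L[ℂ] W => (A : V →ₗ[ℂ] W)) hS.eT
  · exact congrArg (fun A : W →L[ℂ] V => (A : W →ₗ[ℂ] V)) hS.eS

end Pool.Agent.Tate.Idx
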