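import Pool.Agent.Lib.Tate.Idx.Spec

/-!
# C42, block Idx: transport with isomorphisms (helper12)
-/

set_option autoImplicit false

open Set Filter Topology

noncomputable section

namespace Pool.Agent.Tate.Idx

theorem pI8 (h1 : S_I2) (h2 : S_I4) : S_I8 := by
  intro V W V' W' _ _ _ _ _ _ _ _ gV gW gV' gW' e e' T T' z hg hg' hT hz
  have a1 : HasInd gV' gV (e.symm : V' →L[ℂ] V) 0 := by
    refine h2 V' V gV' gV e.symm e ?_ ?_ ?_
    · ext x
      show e.symm (gV' x) = gV (e.symm x)
      rw [ContinuousLinearEquiv.symm_apply_eq, hg, e.apply_symm_apply]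
    · ext x
      exact e.apply_symm_apply x
    · ext x
      exact e.symm_apply_apply x
  have a2 : HasInd gW gW' (e' : W →L[ℂ] W') 0 := by
    refine h2 W W' gW gW' e' e'.symm ?_ ?_ ?_
    · ext x
      exact hg' x
    · ext x
      exact e'.symm_apply_apply x
    · ext x
      exact e'.apply_symm_apply x
  have a3 := h1 V' V W gV' gV gW e.symm T 0 z a1 hz
  have a4 := h1 V' W W' gV' gW gW' _ e' _ 0 a3 a2
  rw [zero_add, add_zero] at a4
  have e5 : T' = (e' : W →L[ℂ] W') ∘L (T ∘L (e.symm : V' →L[ℂ] V)) := by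
    ext x
    show T' x = e' (T (e.symm x))
    rw [← hT, e.apply_symm_apply]
  rw [e5]
  exact a4

end Pool.Agent.Tate.Idx
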