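import Pool.Agent.Lib.Tate.Idx.Spec

set_option autoImplicit false

open Set Filter Topology

noncomputable section

namespace Pool.Agent.Tate.Idx

namespace L1aux

theorem hasSum_norm {ι : Type} (x : H ι) : HasSum (fun a => ‖x a‖) ‖x‖ := by
  have h := lp.hasSum_norm (p := 1) (by simp) x
  simpa using h

theorem summable_smul {ι E : Type} [NormedAddCommGroup E] [NormedSpace ℂ E] [CompleteSpace E]
    {v : ι → E} {C : ℝ} (hv : ∀ a, ‖v a‖ ≤ C) (x : H ι) :
    Summable (fun a => x a • v a) := by
  refine Summable.of_norm_bounded (g := fun a => C * ‖x a‖)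
    ((hasSum_norm x).summable.mul_left C) fun a => ?_
  rw [norm_smul, mul_comm]
  exact mul_le_mul_of_nonneg_right (hv a) (norm_nonneg _)

end L1aux

theorem pL1 : S_L1 := by
  intro ι E _ _ _ v C hC hv
  classical
  let L : H ι →ₗ[ℂ] E :=
    { toFun := fun x => ∑' a, x a • v a
      map_add' := fun x y => by
        have h : ∀ a, (x + y) a • v a = x a • v a + y a • v a := fun a => by
          rw [lp.coeFn_add, Pi.add_apply, add_smul]
        simp only [h]
        exact (L1aux.summable_smul hv x).tsum_add (L1aux.summable_smul hv y)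
      map_smul' := fun c x => by
        have h : ∀ a, (c • x) a • v a = c • (x a • v a) := fun a => by
          rw [lp.coeFn_smul, Pi.smul_apply, smul_assoc]
        simp only [h, RingHom.id_apply]
        exact (L1aux.summable_smul hv x).tsum_const_smul c }
  have hL : ∀ x, ‖L x‖ ≤ C * ‖x‖ := by
    intro x
    have h1 : HasSum (fun a => C * ‖x a‖) (C * ‖x‖) := (L1aux.hasSum_norm x).mul_left C
    refine tsum_of_norm_bounded h1 fun a => ?_
    rw [norm_smul, mul_comm]
    exact mul_le_mul_of_nonneg_right (hv a) (norm_nonneg _)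
  refine ⟨L.mkContinuous C hL, LinearMap.mkContinuous_norm_le _ hC _, fun a => ?_⟩
  change (∑' b, (de a : H ι) b • v b) = v a
  rw [tsum_eq_single a]
  · simp [de]
  · intro b hb
    simp [de, hb]

end Pool.Agent.Tate.Idx
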