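import Pool.Agent.Lib.Tate.Idx.Spec

set_option autoImplicit false

open Set Filter Topology

noncomputable section

namespace Pool.Agent.Tate.Idx

namespace L2aux

theorem hasSum_norm {ι : Type} (x : H ι) : HasSum (fun a => ‖x a‖) ‖x‖ := by
  have h := lp.hasSum_norm (p := 1) (by simp) x
  simpa using h

theorem hasSum_de {ι : Type} (x : H ι) : HasSum (fun a => x a • (de a : H ι)) x := by
  classical
  have h := lp.hasSum_single (p := 1) ENNReal.one_ne_top x
  have h2 : (fun a => x a • (de a : H ι)) = fun a => lp.single 1 a (x a) := by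
    funext a
    rw [de, ← lp.single_smul]
    simp
  rw [h2]
  exact h

theorem norm_de {ι : Type} (a : ι) : ‖(de a : H ι)‖ = 1 := by
  classical
  rw [de, lp.norm_single (by simp)]
  simp

end L2aux

theorem pL2 : S_L2 := by
  intro ι E _ _
  have key : ∀ (A : H ι →L[ℂ] E) (C : ℝ), 0 ≤ C → (∀ a, ‖A (de a)‖ ≤ C) → ‖A‖ ≤ C := by
    intro A C hC hA
    refine A.opNorm_le_bound hC fun x => ?_
    have h1 : HasSum (fun a => A (x a • (de a : H ι))) (A x) := (L2aux.hasSum_de x).mapL A
    have h2 : HasSum (fun a => C * ‖x a‖) (C * ‖x‖) := (L2aux.hasSum_norm x).mul_left C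
    refine h1.norm_le_of_bounded h2 fun a => ?_
    rw [map_smul, norm_smul, mul_comm]
    exact mul_le_mul_of_nonneg_right (hA a) (norm_nonneg _)
  refine ⟨key, L2aux.norm_de, fun A B h => ?_⟩
  have h1 : ‖A - B‖ ≤ 0 := key (A - B) 0 le_rfl fun a => by
    rw [sub_apply, h a, sub_self, norm_zero]
  exact sub_eq_zero.1 (norm_le_zero_iff.1 h1)

end Pool.Agent.Tate.Idx
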