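import Pool.Agent.Lib.Tate.Idx.Spec

set_option autoImplicit false

open Set Filter Topology

namespace Pool.Agent.Tate.Idx

theorem pL5 (h1 : S_L1) (h2 : S_L2) : S_L5 := by
  intro ι ι'
  have n1 : ∀ a : ι, ‖(de a : H ι)‖ = 1 := (h2 ι ℂ).2.1
  have n2 : ∀ b : ι', ‖(de b : H ι')‖ = 1 := (h2 ι' ℂ).2.1
  obtain ⟨A, -, hA⟩ := h1 (ι ⊕ ι') (H ι × H ι')
    (Sum.elim (fun a => ((de a : H ι), (0 : H ι'))) (fun b => ((0 : H ι), (de b : H ι')))) 1
    zero_le_one (by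
      rintro (a | b)
      · simp only [Sum.elim_inl, Prod.norm_mk, norm_zero, n1]
        simp
      · simp only [Sum.elim_inr, Prod.norm_mk, norm_zero, n2]
        simp)
  have hA1 : ∀ a, A (de (Sum.inl a)) = (de a, 0) := fun a => hA (Sum.inl a)
  have hA2 : ∀ b, A (de (Sum.inr b)) = (0, de b) := fun b => hA (Sum.inr b)
  obtain ⟨B₁, -, hB₁⟩ := h1 ι (H (ι ⊕ ι')) (fun a => de (Sum.inl a)) 1 zero_le_one
    (fun a => ((h2 (ι ⊕ ι') ℂ).2.1 (Sum.inl a)).le)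
  obtain ⟨B₂, -, hB₂⟩ := h1 ι' (H (ι ⊕ ι')) (fun b => de (Sum.inr b)) 1 zero_le_one
    (fun b => ((h2 (ι ⊕ ι') ℂ).2.1 (Sum.inr b)).le)
  let B : H ι × H ι' →L[ℂ] H (ι ⊕ ι') := B₁.coprod B₂
  have e1 : B ∘L A = ContinuousLinearMap.id ℂ (H (ι ⊕ ι')) := by
    refine (h2 (ι ⊕ ι') (H (ι ⊕ ι'))).2.2 _ _ ?_
    rintro (a | b)
    · rw [ContinuousLinearMap.comp_apply, hA1]
      show B₁ (de a) + B₂ 0 = _
      rw [map_zero, add_zero, hB₁]
      rfl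
    · rw [ContinuousLinearMap.comp_apply, hA2]
      show B₁ 0 + B₂ (de b) = _
      rw [map_zero, zero_add, hB₂]
      rfl
  have e2 : A ∘L B₁ = ContinuousLinearMap.inl ℂ (H ι) (H ι') := by
    refine (h2 ι (H ι × H ι')).2.2 _ _ (fun a => ?_)
    rw [ContinuousLinearMap.comp_apply, hB₁, hA1]
    rfl
  have e3 : A ∘L B₂ = ContinuousLinearMap.inr ℂ (H ι) (H ι') := by
    refine (h2 ι' (H ι × H ι')).2.2 _ _ (fun b => ?_)
    rw [ContinuousLinearMap.comp_apply, hB₂, hA2]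
    rfl
  have e4 : ∀ x, A (B x) = x := by
    rintro ⟨x, y⟩
    show A (B₁ x + B₂ y) = _
    rw [map_add]
    have h3 : A (B₁ x) = (x, 0) := DFunLike.congr_fun e2 x
    have h4 : A (B₂ y) = (0, y) := DFunLike.congr_fun e3 y
    rw [h3, h4, Prod.mk_add_mk, add_zero, zero_add]
  exact ⟨ContinuousLinearEquiv.equivOfInverse A B (fun x => DFunLike.congr_fun e1 x) e4, hA1, hA2⟩

end Pool.Agent.Tate.Idx
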