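import Pool.Agent.Lib.Tate.Idx.Spec

set_option autoImplicit false

open Set Filter Topology

namespace Pool.Agent.Tate.Idx

theorem pL6 (h1 : S_L1) (h2 : S_L2) : S_L6 := by
  intro ι ι' e
  obtain ⟨A, -, hA⟩ := h1 ι (H ι') (fun a => de (e a)) 1 zero_le_one
    (fun a => ((h2 ι' ℂ).2.1 (e a)).le)
  obtain ⟨B, -, hB⟩ := h1 ι' (H ι) (fun b => de (e.symm b)) 1 zero_le_one
    (fun b => ((h2 ι ℂ).2.1 (e.symm b)).le)
  have e1 : B ∘L A = ContinuousLinearMap.id ℂ (H ι) := by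
    refine (h2 ι (H ι)).2.2 _ _ (fun a => ?_)
    rw [ContinuousLinearMap.comp_apply, hA, hB, e.symm_apply_apply]
    rfl
  have e2 : A ∘L B = ContinuousLinearMap.id ℂ (H ι') := by
    refine (h2 ι' (H ι')).2.2 _ _ (fun a => ?_)
    rw [ContinuousLinearMap.comp_apply, hB, hA, e.apply_symm_apply]
    rfl
  exact ⟨ContinuousLinearEquiv.equivOfInverse A B (fun x => DFunLike.congr_fun e1 x)
    (fun x => DFunLike.congr_fun e2 x), hA⟩

end Pool.Agent.Tate.Idx
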