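import Pool.Agent.Lib.Tate.Idx.Spec

/-!
# C42 (MP_071d69_gt), Idx/L7: the trace of a diagonal operator (helper25, task 12306)
-/

set_option autoImplicit false

open Set Filter Topology

namespace Pool.Agent.Tate.Idx

namespace L7Aux

variable {ι : Type}

theorem de_self (a : ι) : (de a : H ι) a = 1 := by
  classical
  exact lp.single_apply_self _ _ _

theorem de_ne {a b : ι} (h : b ≠ a) : (de a : H ι) b = 0 := by
  classical
  exact lp.single_apply_ne _ _ _ h

theorem single_eq (a : ι) (z : ℂ) [DecidableEq ι] :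
    (lp.single 1 a z : H ι) = z • (de a : H ι) := by
  apply lp.ext
  funext b
  rw [lp.coeFn_smul, Pi.smul_apply]
  by_cases h : b = a
  · subst h
    rw [de_self, lp.single_apply_self, smul_eq_mul, mul_one]
  · rw [de_ne h, lp.single_apply_ne _ _ _ h, smul_zero]

theorem li : LinearIndependent ℂ (fun a : ι => (de a : H ι)) := by
  classical
  let f : H ι →ₗ[ℂ] (ι → ℂ) :=
    { toFun := fun x => (x : ι → ℂ)
      map_add' := fun _ _ => rfl
      map_smul' := fun _ _ => rfl }
  apply LinearIndependent.of_comp f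
  have h := Pi.linearIndependent_single_one ι ℂ
  convert h using 1
  funext a
  funext b
  change (de a : H ι) b = _
  by_cases h : b = a
  · subst h
    rw [de_self, Pi.single_eq_same]
  · rw [de_ne h, Pi.single_eq_of_ne h]

theorem hs (A : H ι →L[ℂ] H ι) (s : Finset ι) (h0 : ∀ a ∉ s, A (de a) = 0) (x : H ι) :
    A x = ∑ a ∈ s, (x a : ℂ) • A (de a) := by
  classical
  have h1 : HasSum (fun a => (lp.single 1 a (x a : ℂ) : H ι)) x :=
    lp.hasSum_single ENNReal.one_ne_top x
  have h2 := A.hasSum h1
  have h3 : (fun a => A (lp.single 1 a (x a : ℂ) : H ι)) = fun a => (x a : ℂ) • A (de a) := by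
    funext a
    rw [single_eq, map_smul]
  rw [h3] at h2
  refine h2.unique (hasSum_sum_of_ne_finset_zero fun a ha => ?_)
  rw [h0 a ha, smul_zero]

end L7Aux

open L7Aux in
theorem pL7 (h1 : S_T1) (_h2 : S_L3) : S_L7 := by
  intro ι s c A hA hA0
  classical
  have hli : LinearIndependent ℂ (fun a : s => (de a.1 : H ι)) :=
    li.comp (fun a : s => a.1) Subtype.val_injective
  have hfd : FiniteDimensional ℂ
      (Submodule.span ℂ (Set.range fun a : s => (de a.1 : H ι))) :=
    FiniteDimensional.span_of_finite ℂ (Set.finite_range _)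
  have hAU : ∀ x : H ι, (A : H ι →ₗ[ℂ] H ι) x ∈
      Submodule.span ℂ (Set.range fun a : s => (de a.1 : H ι)) := by
    intro x
    change A x ∈ _
    rw [hs A s hA0 x]
    refine Submodule.sum_mem _ fun a ha => ?_
    rw [hA a ha]
    exact Submodule.smul_mem _ _ (Submodule.smul_mem _ _ (Submodule.subset_span ⟨⟨a, ha⟩, rfl⟩))
  obtain ⟨hF, ht⟩ := h1 (H ι) (A : H ι →ₗ[ℂ] H ι) _ hAU hfd
  refine ⟨hF, ?_⟩
  rw [ht, LinearMap.trace_eq_matrix_trace ℂ (Module.Basis.span hli), Matrix.trace,
    ← Finset.sum_coe_sort s]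
  refine Finset.sum_congr rfl fun a _ => ?_
  rw [Matrix.diag_apply, LinearMap.toMatrix_apply]
  have e : ((A : H ι →ₗ[ℂ] H ι).restrict (p := Submodule.span ℂ (Set.range fun a : s => (de a.1 : H ι)))
      (q := Submodule.span ℂ (Set.range fun a : s => (de a.1 : H ι))) fun x _ => hAU x)
      (Module.Basis.span hli a) = c a.1 • Module.Basis.span hli a := by
    apply Subtype.ext
    rw [LinearMap.coe_restrict_apply, Submodule.coe_smul, Module.Basis.span_apply]
    exact hA a.1 a.2
  rw [e, map_smul, Module.Basis.repr_self, Finsupp.smul_apply, Finsupp.single_eq_same, smul_eq_mul,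
    mul_one]

end Pool.Agent.Tate.Idx
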