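import Pool.Agent.Lib.Tate.Idx.Spec

/-!
# C42, block Idx: diagonal operators (`S_L8`)
-/

set_option autoImplicit false

open Set Filter Topology

noncomputable section

namespace Pool.Agent.Tate.Idx

theorem pL8 (h1 : S_L1) (h2 : S_L2) : S_L8 := by
  intro ι c hc
  obtain ⟨-, hd, hext⟩ := h2 ι (H ι)
  have hn : ∀ a, ‖c a‖ = 1 := fun a => Complex.norm_eq_one_of_pow_eq_one (hc a) (by norm_num)
  obtain ⟨g, hg1, hg2⟩ := h1 ι (H ι) (fun a => c a • de a) 1 zero_le_one (fun a => by
    rw [norm_smul, hn, hd, one_mul])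
  refine ⟨g, hg2, ?_, hg1⟩
  refine hext _ _ fun a => ?_
  have e : ∀ n : ℕ, (g ^ n) (de a) = c a ^ n • de a := by
    intro n
    induction n with
    | zero => simp
    | succ n ih =>
      rw [pow_succ', mul_apply_eq_comp, ih, map_smul, hg2, smul_smul, pow_succ]
  rw [e 4, hc, one_smul]
  rfl

end Pool.Agent.Tate.Idx
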