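import Pool.Agent.Lib.Tate.Idx.Spec

set_option autoImplicit false

open Set Filter Topology

namespace Pool.Agent.Tate.Idx

theorem pT1 : S_T1 := by
  intro V _ _ A U h hU
  have hle : LinearMap.range A ≤ U := by
    rintro _ ⟨x, rfl⟩
    exact h x
  have hfr : FiniteDimensional ℂ (LinearMap.range A) := Submodule.finiteDimensional_of_le hle
  refine ⟨hfr, ?_⟩
  let i : LinearMap.range A →ₗ[ℂ] U := Submodule.inclusion hle
  let a : U →ₗ[ℂ] LinearMap.range A :=
    (A ∘ₗ U.subtype).codRestrict (LinearMap.range A) (fun x => LinearMap.mem_range_self A _)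
  have h1 : (A.restrict (p := U) (q := U) fun x _ => h x) = i ∘ₗ a := by
    ext x
    rfl
  have h2 : (A.restrict (p := LinearMap.range A) (q := LinearMap.range A)
      fun x _ => LinearMap.mem_range_self A x) = a ∘ₗ i := by
    ext x
    rfl
  unfold ftr
  rw [h1, h2]
  exact LinearMap.trace_comp_comm' i a

end Pool.Agent.Tate.Idx
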