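import Pool.Agent.Lib.Tate.Idx.Spec

set_option autoImplicit false

open Set Filter Topology

namespace Pool.Agent.Tate.Idx

theorem pT2 (h1 : S_T1) : S_T2 := by
  intro V W _ _ _ _
  refine ⟨fun A B hA hB => ?_, fun c A hA => ?_, fun A B hA hB => ?_, fun c A hA => ?_⟩
  · unfold FR at *
    have hle : LinearMap.range (A + B) ≤ LinearMap.range A ⊔ LinearMap.range B := by
      rintro _ ⟨x, rfl⟩
      exact Submodule.add_mem_sup (LinearMap.mem_range_self A x) (LinearMap.mem_range_self B x)
    exact Submodule.finiteDimensional_of_le hle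
  · unfold FR at *
    have hle : LinearMap.range (c • A) ≤ LinearMap.range A := by
      rintro _ ⟨x, rfl⟩
      exact Submodule.smul_mem _ c (LinearMap.mem_range_self A x)
    exact Submodule.finiteDimensional_of_le hle
  · have hA' : FiniteDimensional ℂ (LinearMap.range A) := hA
    have hB' : FiniteDimensional ℂ (LinearMap.range B) := hB
    have hU : FiniteDimensional ℂ ↥(LinearMap.range A ⊔ LinearMap.range B) := inferInstance
    have a1 : ∀ x, A x ∈ LinearMap.range A ⊔ LinearMap.range B := fun x =>
      Submodule.mem_sup_left (LinearMap.mem_range_self A x)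
    have b1 : ∀ x, B x ∈ LinearMap.range A ⊔ LinearMap.range B := fun x =>
      Submodule.mem_sup_right (LinearMap.mem_range_self B x)
    rw [(h1 V A _ a1 hU).2, (h1 V B _ b1 hU).2,
      (h1 V (A + B) _ (fun x => Submodule.add_mem _ (a1 x) (b1 x)) hU).2, ← map_add]
    rfl
  · have a1 : ∀ x, A x ∈ LinearMap.range A := fun x => LinearMap.mem_range_self A x
    rw [(h1 V (c • A) _ (fun x => Submodule.smul_mem _ c (a1 x)) hA).2,
      (h1 V A _ a1 hA).2, ← smul_eq_mul, ← map_smul]
    rfl

end Pool.Agent.Tate.Idx
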