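import Pool.Agent.Lib.Tate.Idx.Spec

set_option autoImplicit false

open Set Filter Topology

namespace Pool.Agent.Tate.Idx

theorem pT3 (h1 : S_T1) : S_T3 := by
  intro V W _ _ _ _ A B hA
  have hA' : FiniteDimensional ℂ (LinearMap.range A) := hA
  have hV : FiniteDimensional ℂ ↥((LinearMap.range A).map B) := inferInstance
  have aW : ∀ x, (A ∘ₗ B) x ∈ LinearMap.range A := fun x => LinearMap.mem_range_self A _
  have aV : ∀ x, (B ∘ₗ A) x ∈ (LinearMap.range A).map B := fun x =>
    Submodule.mem_map_of_mem (LinearMap.mem_range_self A x)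
  obtain ⟨f1, t1⟩ := h1 W (A ∘ₗ B) _ aW hA'
  obtain ⟨f2, t2⟩ := h1 V (B ∘ₗ A) _ aV hV
  refine ⟨f1, f2, ?_⟩
  rw [t1, t2]
  let a : ↥((LinearMap.range A).map B) →ₗ[ℂ] LinearMap.range A :=
    (A ∘ₗ ((LinearMap.range A).map B).subtype).codRestrict (LinearMap.range A)
      (fun x => LinearMap.mem_range_self A _)
  let b : LinearMap.range A →ₗ[ℂ] ↥((LinearMap.range A).map B) :=
    (B ∘ₗ (LinearMap.range A).subtype).codRestrict ((LinearMap.range A).map B)
      (fun x => Submodule.mem_map_of_mem x.2)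
  have e1 : ((A ∘ₗ B).restrict (p := LinearMap.range A) (q := LinearMap.range A)
      fun x _ => aW x) = a ∘ₗ b := by
    ext x
    rfl
  have e2 : ((B ∘ₗ A).restrict (p := (LinearMap.range A).map B) (q := (LinearMap.range A).map B)
      fun x _ => aV x) = b ∘ₗ a := by
    ext x
    rfl
  rw [e1, e2]
  exact LinearMap.trace_comp_comm' b a

end Pool.Agent.Tate.Idx
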