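import Pool.Agent.Lib.Tate.Idx.Spec

/-!
# C42, block Idx: trace of block triangular operators (helper12)
-/

set_option autoImplicit false

open Set Filter Topology

noncomputable section

namespace Pool.Agent.Tate.Idx

namespace T4x

variable {V W X : Type} [AddCommGroup V] [Module ℂ V] [AddCommGroup W] [Module ℂ W]
  [AddCommGroup X] [Module ℂ X]

theorem cl {A : V →ₗ[ℂ] W} (B : W →ₗ[ℂ] X) (h : FR A) : FR (B ∘ₗ A) := by
  unfold FR at *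
  rw [LinearMap.range_comp]
  infer_instance

theorem cr (A : V →ₗ[ℂ] W) {B : W →ₗ[ℂ] X} (h : FR B) : FR (B ∘ₗ A) := by
  unfold FR at *
  exact Submodule.finiteDimensional_of_le (LinearMap.range_comp_le_range A B)

theorem ftr_zero : ftr (0 : V →ₗ[ℂ] V) = 0 := by
  unfold ftr
  have h : ((0 : V →ₗ[ℂ] V).restrict (p := LinearMap.range (0 : V →ₗ[ℂ] V))
    (q := LinearMap.range (0 : V →ₗ[ℂ] V)) fun x _ => LinearMap.mem_range_self 0 x) = 0 := by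
    ext x
    rfl
  rw [h, map_zero]

end T4x

open T4x in
theorem pT4 (h1 : S_T2) (h2 : S_T3) : S_T4 := by
  intro V W _ _ _ _ A₁ A₂ B A hA1 hA2 hB hA
  have e : A = ((LinearMap.inl ℂ V W ∘ₗ A₁) ∘ₗ LinearMap.fst ℂ V W +
      (LinearMap.inr ℂ V W ∘ₗ A₂) ∘ₗ LinearMap.snd ℂ V W) +
      (LinearMap.inl ℂ V W ∘ₗ B) ∘ₗ LinearMap.snd ℂ V W := by
    refine LinearMap.ext fun p => ?_
    obtain ⟨x, y⟩ := p
    rw [hA]
    simp
  have f1 := cr (LinearMap.fst ℂ V W) (cl (LinearMap.inl ℂ V W) hA1)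
  have f2 := cr (LinearMap.snd ℂ V W) (cl (LinearMap.inr ℂ V W) hA2)
  have f3 := cr (LinearMap.snd ℂ V W) (cl (LinearMap.inl ℂ V W) hB)
  have h12 := (h1 (V × W) (V × W)).1 _ _ f1 f2
  have t1 : ftr ((LinearMap.inl ℂ V W ∘ₗ A₁) ∘ₗ LinearMap.fst ℂ V W) = ftr A₁ := by
    rw [(h2 V (V × W) (LinearMap.inl ℂ V W ∘ₗ A₁) (LinearMap.fst ℂ V W)
      (cl (LinearMap.inl ℂ V W) hA1)).2.2, ← LinearMap.comp_assoc, LinearMap.fst_comp_inl,
      LinearMap.id_comp]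
  have t2 : ftr ((LinearMap.inr ℂ V W ∘ₗ A₂) ∘ₗ LinearMap.snd ℂ V W) = ftr A₂ := by
    rw [(h2 W (V × W) (LinearMap.inr ℂ V W ∘ₗ A₂) (LinearMap.snd ℂ V W)
      (cl (LinearMap.inr ℂ V W) hA2)).2.2, ← LinearMap.comp_assoc, LinearMap.snd_comp_inr,
      LinearMap.id_comp]
  have t3 : ftr ((LinearMap.inl ℂ V W ∘ₗ B) ∘ₗ LinearMap.snd ℂ V W) = 0 := by
    rw [(h2 W (V × W) (LinearMap.inl ℂ V W ∘ₗ B) (LinearMap.snd ℂ V W)
      (cl (LinearMap.inl ℂ V W) hB)).2.2, ← LinearMap.comp_assoc, LinearMap.snd_comp_inl,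
      LinearMap.zero_comp, ftr_zero]
  refine ⟨e ▸ (h1 (V × W) (V × W)).1 _ _ h12 f3, ?_⟩
  rw [e, (h1 (V × W) (V × W)).2.2.1 _ _ h12 f3, (h1 (V × W) (V × W)).2.2.1 _ _ f1 f2, t1, t2, t3,
    add_zero]

end Pool.Agent.Tate.Idx
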