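import Pool.Agent.Lib.Tate.Idx.Spec

/-!
# C42, block Idx: traces of operators of order 4 (helper12)
-/

set_option autoImplicit false

open Set Filter Topology

noncomputable section

namespace Pool.Agent.Tate.Idx

namespace T5x

theorem one {a : ℂ} (h : a ^ 4 = 1) : ∃ x y : ℤ, a = x + y * Complex.I := by
  have hI := Complex.I_sq
  have h0 : (a - 1) * (a + 1) * ((a - Complex.I) * (a + Complex.I)) = 0 := by
    linear_combination h - (a ^ 2 - 1) * hI
  rcases mul_eq_zero.1 h0 with h0 | h0
  · rcases mul_eq_zero.1 h0 with h0 | h0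
    · exact ⟨1, 0, by push_cast; linear_combination h0⟩
    · exact ⟨-1, 0, by push_cast; linear_combination h0⟩
  · rcases mul_eq_zero.1 h0 with h0 | h0
    · exact ⟨0, 1, by push_cast; linear_combination h0⟩
    · exact ⟨0, -1, by push_cast; linear_combination h0⟩

theorem sum (s : Multiset ℂ) :
    (∀ μ ∈ s, μ ^ 4 = 1) → ∃ x y : ℤ, s.sum = x + y * Complex.I := by
  induction s using Multiset.induction_on with
  | empty => exact fun _ => ⟨0, 0, by simp⟩
  | cons a s ih =>
    intro h
    obtain ⟨x, y, hx⟩ := ih fun μ hμ => h μ (Multiset.mem_cons_of_mem hμ)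
    obtain ⟨x', y', hx'⟩ := one (h a (Multiset.mem_cons_self a s))
    refine ⟨x' + x, y' + y, ?_⟩
    rw [Multiset.sum_cons, hx]
    push_cast
    linear_combination hx'

end T5x

theorem pT5 : S_T5 := by
  intro U _ _ _ g hg
  rw [Module.End.trace_eq_sum_roots_charpoly_of_splits (IsAlgClosed.splits _)]
  refine T5x.sum _ fun μ hμ => ?_
  have h1 := Polynomial.isRoot_of_mem_roots hμ
  obtain ⟨v, hv⟩ := ((Module.End.hasEigenvalue_iff_isRoot_charpoly g μ).2 h1).exists_hasEigenvector
  have h2 := hv.pow_apply 4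
  rw [hg, Module.End.one_apply] at h2
  have h3 : (1 - μ ^ 4) • v = 0 := by rw [sub_smul, one_smul, ← h2, sub_self]
  rcases smul_eq_zero.1 h3 with h | h
  · exact (sub_eq_zero.1 h).symm
  · exact absurd h hv.2

end Pool.Agent.Tate.Idx
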