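import Pool.Agent.Lib.Tate.Idx.Spec

/-!
# C42 (MP_071d69_gt), block Idx: integrality of the index, algebraic form
-/

set_option autoImplicit false

noncomputable section

namespace Pool.Agent.Tate.Idx

theorem pT6 (h1 : S_T1) (h2 : S_T5) : S_T6 := by
  intro V W _ _ _ _ gV gW T S hgV hgW eT eS fp fq
  have cT : ∀ x, T (gV x) = gW (T x) := fun x => LinearMap.congr_fun eT x
  have cS : ∀ x, S (gW x) = gV (S x) := fun x => LinearMap.congr_fun eS x
  set p : V →ₗ[ℂ] V := 1 - S ∘ₗ T with hp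
  set q : W →ₗ[ℂ] W := 1 - T ∘ₗ S with hq
  have px : ∀ x, p x = x - S (T x) := fun x => rfl
  have qx : ∀ x, q x = x - T (S x) := fun x => rfl
  have iP : FiniteDimensional ℂ (LinearMap.range p) := fp
  have iQ : FiniteDimensional ℂ (LinearMap.range q) := fq
  have gP : ∀ x ∈ LinearMap.range p, gV x ∈ LinearMap.range p := by
    rintro _ ⟨x, rfl⟩
    exact ⟨gV x, by rw [px, px, map_sub, cT, cS]⟩
  have gQ : ∀ x ∈ LinearMap.range q, gW x ∈ LinearMap.range q := by
    rintro _ ⟨x, rfl⟩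
    exact ⟨gW x, by rw [qx, qx, map_sub, cS, cT]⟩
  have tP : ∀ x ∈ LinearMap.range p, T x ∈ LinearMap.range q := by
    rintro _ ⟨x, rfl⟩
    exact ⟨T x, by rw [px, qx, map_sub]⟩
  have sQ : ∀ x ∈ LinearMap.range q, S x ∈ LinearMap.range p := by
    rintro _ ⟨x, rfl⟩
    exact ⟨S x, by rw [px, qx, map_sub]⟩
  set γ : LinearMap.range p →ₗ[ℂ] LinearMap.range p := gV.restrict gP with hγ
  set γ' : LinearMap.range q →ₗ[ℂ] LinearMap.range q := gW.restrict gQ with hγ'
  set a : LinearMap.range p →ₗ[ℂ] LinearMap.range q := T.restrict tP with ha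
  set b : LinearMap.range q →ₗ[ℂ] LinearMap.range p := S.restrict sQ with hb
  obtain ⟨-, t1⟩ := h1 V (gV ∘ₗ p) (LinearMap.range p)
    (fun x => gP _ (LinearMap.mem_range_self p x)) iP
  obtain ⟨-, t2⟩ := h1 W (gW ∘ₗ q) (LinearMap.range q)
    (fun x => gQ _ (LinearMap.mem_range_self q x)) iQ
  have r1 : (gV ∘ₗ p).restrict (p := LinearMap.range p) (q := LinearMap.range p)
      (fun x _ => gP _ (LinearMap.mem_range_self p x)) = γ - b ∘ₗ (γ' ∘ₗ a) := by
    refine LinearMap.ext fun x => Subtype.ext ?_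
    have e1 : (((gV ∘ₗ p).restrict (p := LinearMap.range p) (q := LinearMap.range p)
      (fun x _ => gP _ (LinearMap.mem_range_self p x))) x : V) = gV (x - S (T x)) := rfl
    have e2 : ((γ - b ∘ₗ (γ' ∘ₗ a)) x : V) = gV x - S (gW (T x)) := rfl
    rw [e1, e2, map_sub, cS]
  have r2 : (gW ∘ₗ q).restrict (p := LinearMap.range q) (q := LinearMap.range q)
      (fun x _ => gQ _ (LinearMap.mem_range_self q x)) = γ' - (γ' ∘ₗ a) ∘ₗ b := by
    refine LinearMap.ext fun x => Subtype.ext ?_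
    have e1 : (((gW ∘ₗ q).restrict (p := LinearMap.range q) (q := LinearMap.range q)
      (fun x _ => gQ _ (LinearMap.mem_range_self q x))) x : W) = gW (x - T (S x)) := rfl
    have e2 : ((γ' - (γ' ∘ₗ a) ∘ₗ b) x : W) = gW x - gW (T (S x)) := rfl
    rw [e1, e2, map_sub]
  rw [r1, map_sub] at t1
  rw [r2, map_sub, LinearMap.trace_comp_comm'] at t2
  have f1 : γ ^ 4 = 1 := by
    refine LinearMap.ext fun x => Subtype.ext ?_
    have e1 : ((γ ^ 4) x : V) = (gV ^ 4) x := rfl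
    rw [e1, hgV]
    rfl
  have f2 : γ' ^ 4 = 1 := by
    refine LinearMap.ext fun x => Subtype.ext ?_
    have e1 : ((γ' ^ 4) x : W) = (gW ^ 4) x := rfl
    rw [e1, hgW]
    rfl
  obtain ⟨x, y, hxy⟩ := h2 _ γ f1
  obtain ⟨x', y', hxy'⟩ := h2 _ γ' f2
  refine ⟨x - x', y - y', ?_⟩
  rw [t1, t2, hxy, hxy']
  push_cast
  ring

end Pool.Agent.Tate.Idx
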