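import Pool.Agent.Lib.Tate.Idx.B4

/-!
# C42, block Idx, B5: a right parametrix
-/

set_option autoImplicit false

noncomputable section

namespace Pool.Agent.Tate.Idx

/-- **B5.** A right parametrix. -/
theorem pB5 (h2 : S_T2) (h3 : S_T3) : S_B5 := by
  intro V W _ _ _ _ _ gV gW T S A K hgV hgW nV nW hT hA hK hTS
  obtain ⟨F, hF, hFn⟩ := hK ((1 - ‖A‖) / 2) (by linarith)
  set B : W →L[ℂ] W := A + (K - F) with hB
  have hBn : ‖B‖ < 1 := by
    have := norm_add_le A (K - F)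
    have e : (1 - ‖A‖) / 2 < 1 - ‖A‖ := by linarith
    rw [hB]
    linarith
  have hTS' : T ∘L S = 1 - (B + F) := by
    rw [hTS, hB]; abel
  have hav : T ∘L av gV gW S = 1 - (av gW gW B + av gW gW F) := by
    rw [← av_compL S T hT, hTS', av_sub, av_one hgW, av_add]
  have hBa : ‖av gW gW B‖ < 1 := (av_norm nW nW B).trans_lt hBn
  let U : (W →L[ℂ] W)ˣ := Units.oneSub (av gW gW B) hBa
  have hU : (U : W →L[ℂ] W) = 1 - av gW gW B := rfl
  have hUc : Commute (U : W →L[ℂ] W) gW := by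
    have e := av_equiv hgW hgW B
    show (U : W →L[ℂ] W) * gW = gW * (U : W →L[ℂ] W)
    rw [hU, sub_mul, mul_sub, one_mul, mul_one]
    congr 1
  have hUc' : Commute (↑U⁻¹ : W →L[ℂ] W) gW := Commute.units_inv_left hUc
  refine ⟨av gV gW S ∘L (↑U⁻¹ : W →L[ℂ] W), ?_, ?_⟩
  · have e1 : (↑U⁻¹ : W →L[ℂ] W) ∘L gW = gW ∘L (↑U⁻¹ : W →L[ℂ] W) := hUc'
    rw [ContinuousLinearMap.comp_assoc, e1, ← ContinuousLinearMap.comp_assoc,
      av_equiv hgV hgW S, ContinuousLinearMap.comp_assoc]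
  · have e : (1 : W →L[ℂ] W) - T ∘L (av gV gW S ∘L (↑U⁻¹ : W →L[ℂ] W)) =
        av gW gW F ∘L (↑U⁻¹ : W →L[ℂ] W) := by
      rw [← ContinuousLinearMap.comp_assoc, hav]
      have e1 : (1 : W →L[ℂ] W) - (av gW gW B + av gW gW F) = (U : W →L[ℂ] W) - av gW gW F := by
        rw [hU]; abel
      rw [e1]
      have e2 : ((U : W →L[ℂ] W) - av gW gW F) ∘L (↑U⁻¹ : W →L[ℂ] W) =
          (U : W →L[ℂ] W) * (↑U⁻¹ : W →L[ℂ] W) - av gW gW F * (↑U⁻¹ : W →L[ℂ] W) :=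
        sub_mul _ _ _
      rw [e2, Units.mul_inv]
      simp only [sub_sub_cancel]
      rfl
    rw [e]
    exact frc_compR h3 _ _ (av_FR h2 h3 gW gW F hF)

end Pool.Agent.Tate.Idx
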