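import Pool.Agent.Lib.Tate.Idx.Spec

/-!
# C42 (MP_071d69_gt), block Idx: operators whose columns tend to `0`
-/

set_option autoImplicit false

open Set Filter Topology

noncomputable section

namespace Pool.Agent.Tate.Idx

theorem pL3 (h1 : S_L1) (h2 : S_L2) : S_L3 := by
  intro ι E _ _ _
  have key : ∀ A : H ι →L[ℂ] E, {a | A (de a) ≠ 0}.Finite → FR (A : H ι →ₗ[ℂ] E) := by
    intro A hA
    classical
    have hev : ∀ a : ι, ∃ e : H ι →L[ℂ] ℂ, ∀ b, e (de b) = if b = a then 1 else 0 := by
      intro a
      obtain ⟨e, -, he⟩ := h1 ι ℂ (fun b => if b = a then 1 else 0) 1 zero_le_one (by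
        intro b
        split_ifs <;> simp)
      exact ⟨e, he⟩
    choose e he using hev
    set F : H ι →L[ℂ] E := ∑ a ∈ hA.toFinset, (e a).smulRight (A (de a)) with hF
    have hFx : ∀ x, F x = ∑ a ∈ hA.toFinset, e a x • A (de a) := by
      intro x
      rw [hF, sum_apply]
      rfl
    have hAF : A = F := by
      refine (h2 ι E).2.2 A F fun b => ?_
      rw [hFx]
      simp only [he, ite_smul, one_smul, zero_smul]
      rw [Finset.sum_ite_eq hA.toFinset b]
      split_ifs with hb
      · rfl
      · by_contra h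
        exact hb (hA.mem_toFinset.2 h)
    unfold FR
    have hle : LinearMap.range (A : H ι →ₗ[ℂ] E) ≤
        Submodule.span ℂ ((fun a => A (de a)) '' {a | A (de a) ≠ 0}) := by
      rintro _ ⟨x, rfl⟩
      have h3 : (A : H ι →ₗ[ℂ] E) x = ∑ a ∈ hA.toFinset, e a x • A (de a) := by
        rw [← hFx]
        exact DFunLike.congr_fun hAF x
      rw [h3]
      refine Submodule.sum_mem _ fun a ha => Submodule.smul_mem _ _ (Submodule.subset_span ?_)
      exact ⟨a, hA.mem_toFinset.1 ha, rfl⟩
    have : FiniteDimensional ℂ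
        (Submodule.span ℂ ((fun a => A (de a)) '' {a | A (de a) ≠ 0})) :=
      FiniteDimensional.span_of_finite ℂ (hA.image _)
    exact Submodule.finiteDimensional_of_le hle
  intro A
  refine ⟨?_, key A⟩
  intro hA ε hε
  classical
  obtain ⟨F, -, hF⟩ := h1 ι E (fun a => if ε < ‖A (de a)‖ then A (de a) else 0) ‖A‖
    (norm_nonneg _) (by
      intro a
      split_ifs
      · refine (A.le_opNorm _).trans ?_
        rw [(h2 ι E).2.1, mul_one]
      · rw [norm_zero]
        exact norm_nonneg _)
  refine ⟨F, key F ((hA ε hε).subset ?_), ?_⟩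
  · intro a ha
    by_contra h
    have h' : ¬ ε < ‖A (de a)‖ := h
    refine ha ?_
    rw [hF, if_neg h']
  · refine (h2 ι E).1 _ _ hε.le fun a => ?_
    have h3 : (A - F) (de a) = A (de a) - F (de a) := rfl
    rw [h3, hF]
    split_ifs with h
    · rw [sub_self, norm_zero]
      exact hε.le
    · rw [sub_zero]
      exact not_lt.1 h

end Pool.Agent.Tate.Idx
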