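import Mathlib

/-!
# C42 (MP_071d69_gt), T7 (Det), block Idx (helper35): the equivariant index, algebraically

`T : V → W` is invertible modulo operators of finite rank, with the parametrix `S : W → V`
(`p = 1 - S T`, `q = 1 - T S` of finite rank), both commute with operators `gV`, `gW`
(`g⁴ = 1` where this is needed).  Index: `tr (g p) - tr (g q)` (traces of operators of finite rank).
It does not depend on `S`, is additive for compositions and block triangular operators, does not change under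
perturbations which are of finite rank or small, so it is constant along paths, and it is a Gaussian integer.

Complete proofs in the docstrings.  Statement `S_X` is proved by `theorem pX` in
`Pool/Agent/Lib/Tate/Idx/X.lean` (namespace `Pool.Agent.Tate.Idx`); the statements which are used are
hypotheses of the theorem.
-/

set_option autoImplicit false

open Set Filter Topology

noncomputable section

namespace Pool.Agent.Tate.Idx

/-! ### Definitions -/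

/-- Operators of finite rank. -/
def FR {V W : Type} [AddCommGroup V] [Module ℂ V] [AddCommGroup W] [Module ℂ W]
    (A : V →ₗ[ℂ] W) : Prop := FiniteDimensional ℂ (LinearMap.range A)

/-- The trace of an operator (meaningful for operators of finite rank). -/
def ftr {V : Type} [AddCommGroup V] [Module ℂ V] (A : V →ₗ[ℂ] V) : ℂ :=
  LinearMap.trace ℂ (LinearMap.range A) (A.restrict (p := LinearMap.range A)
    (q := LinearMap.range A) fun x _ => LinearMap.mem_range_self A x)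

/-- `S` is an equivariant parametrix of the equivariant operator `T`. -/
structure Par {V W : Type} [NormedAddCommGroup V] [NormedSpace ℂ V] [NormedAddCommGroup W]
    [NormedSpace ℂ W] (gV : V →L[ℂ] V) (gW : W →L[ℂ] W) (T : V →L[ℂ] W) (S : W →L[ℂ] V) :
    Prop where
  eT : T ∘L gV = gW ∘L T
  eS : S ∘L gW = gV ∘L S
  fp : FR ((1 - S ∘L T : V →L[ℂ] V) : V →ₗ[ℂ] V)
  fq : FR ((1 - T ∘L S : W →L[ℂ] W) : W →ₗ[ℂ] W)

/-- `tr (g p) - tr (g q)`. -/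
def ind {V W : Type} [NormedAddCommGroup V] [NormedSpace ℂ V] [NormedAddCommGroup W]
    [NormedSpace ℂ W] (gV : V →L[ℂ] V) (gW : W →L[ℂ] W) (T : V →L[ℂ] W) (S : W →L[ℂ] V) : ℂ :=
  ftr ((gV ∘L (1 - S ∘L T) : V →L[ℂ] V) : V →ₗ[ℂ] V) -
    ftr ((gW ∘L (1 - T ∘L S) : W →L[ℂ] W) : W →ₗ[ℂ] W)

/-- `T` is equivariant, invertible modulo finite rank, and its index is `z`. -/
def HasInd {V W : Type} [NormedAddCommGroup V] [NormedSpace ℂ V] [NormedAddCommGroup W]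
    [NormedSpace ℂ W] (gV : V →L[ℂ] V) (gW : W →L[ℂ] W) (T : V →L[ℂ] W) (z : ℂ) : Prop :=
  ∃ S : W →L[ℂ] V, Par gV gW T S ∧ z = ind gV gW T S

/-- Norm limits of operators of finite rank. -/
def Cpt {V W : Type} [NormedAddCommGroup V] [NormedSpace ℂ V] [NormedAddCommGroup W]
    [NormedSpace ℂ W] (A : V →L[ℂ] W) : Prop :=
  ∀ ε > (0 : ℝ), ∃ F : V →L[ℂ] W, FR (F : V →ₗ[ℂ] W) ∧ ‖A - F‖ ≤ ε

/-! ### Traces of operators of finite rank -/

/-- **T1.** The trace on a finite-dimensional space which contains the range.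

Proof. `range A ≤ U`.  The restriction of `A` to `U` has its values in the submodule `range A` of `U` (as a submodule
of `U`: `(range A).comap U.subtype`, isomorphic to `range A` as `range A ≤ U`), so its trace is the trace of the
restriction to this submodule (`LinearMap.trace_restrict_eq_of_forall_mem`; and `LinearMap.trace_conj'` for the
isomorphism). -/
def S_T1 : Prop := ∀ (V : Type) [AddCommGroup V] [Module ℂ V] (A : V →ₗ[ℂ] V) (U : Submodule ℂ V)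
  (h : ∀ x, A x ∈ U), FiniteDimensional ℂ U →
  FR A ∧ ftr A = LinearMap.trace ℂ U (A.restrict (p := U) (q := U) fun x _ => h x)

/-- **T2.** Linearity.  (Uses `S_T1`.)

Proof. `S_T1` with `U = range A ⊔ range B` for `A`, `B` and `A + B`; the restriction is additive. -/
def S_T2 : Prop := ∀ (V W : Type) [AddCommGroup V] [Module ℂ V] [AddCommGroup W] [Module ℂ W],
  (∀ A B : V →ₗ[ℂ] W, FR A → FR B → FR (A + B)) ∧
  (∀ (c : ℂ) (A : V →ₗ[ℂ] W), FR A → FR (c • A)) ∧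
  (∀ A B : V →ₗ[ℂ] V, FR A → FR B → ftr (A + B) = ftr A + ftr B) ∧
  ∀ (c : ℂ) (A : V →ₗ[ℂ] V), FR A → ftr (c • A) = c * ftr A

/-- **T3.** `tr (A B) = tr (B A)`.  (Uses `S_T1`.)

Proof. `W₀ = range A`, `V₀ = B(W₀)`, both finite-dimensional; `A` and `B` restrict to `a : V₀ → W₀`, `b : W₀ → V₀`.
`A B : W → W` has its values in `W₀`, the restriction to `W₀` is `a b`; `B A : V → V` has its values in `V₀`, the
restriction is `b a`; `S_T1` and `LinearMap.trace_comp_comm'`. -/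
def S_T3 : Prop := ∀ (V W : Type) [AddCommGroup V] [Module ℂ V] [AddCommGroup W] [Module ℂ W]
  (A : V →ₗ[ℂ] W) (B : W →ₗ[ℂ] V), FR A →
  FR (A ∘ₗ B) ∧ FR (B ∘ₗ A) ∧ ftr (A ∘ₗ B) = ftr (B ∘ₗ A)

/-- **T4.** Block triangular operators.  (Uses `S_T2`, `S_T3`.)

Proof. `A = inl A₁ fst + inr A₂ snd + inl B snd`.  By `S_T3` the traces are `tr (A₁ fst inl) = tr A₁`, `tr (A₂ snd inr) = tr A₂`,
`tr (B snd inl) = tr 0 = 0`; `S_T2`. -/
def S_T4 : Prop := ∀ (V W : Type) [AddCommGroup V] [Module ℂ V] [AddCommGroup W] [Module ℂ W]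
  (A₁ : V →ₗ[ℂ] V) (A₂ : W →ₗ[ℂ] W) (B : W →ₗ[ℂ] V) (A : V × W →ₗ[ℂ] V × W),
  FR A₁ → FR A₂ → FR B → (∀ x y, A (x, y) = (A₁ x + B y, A₂ y)) →
  FR A ∧ ftr A = ftr A₁ + ftr A₂

/-- **T5.** Traces of operators of order 4 are Gaussian integers.

Proof. The trace is the sum of the roots of the characteristic polynomial (`ℂ` is algebraically closed,
`LinearMap.trace_eq_sum_roots_charpoly` or the same for matrices); every root is an eigenvalue `μ`, and `μ⁴ = 1`, so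
`μ ∈ {1, -1, i, -i}`. -/
def S_T5 : Prop := ∀ (U : Type) [AddCommGroup U] [Module ℂ U] [FiniteDimensional ℂ U]
  (g : U →ₗ[ℂ] U), g ^ 4 = 1 → ∃ x y : ℤ, LinearMap.trace ℂ U g = x + y * Complex.I

/-- **T6.** Integrality of the index, algebraic form.  (Uses `S_T1`, `S_T5`.)

Proof. `p = 1 - S T`, `q = 1 - T S`, `P = range p`, `Q = range q`, finite-dimensional.  `T p = q T`, `S q = p S`, `g p = p g`,
`g q = q g`, so `T : P → Q`, `S : Q → P`, and `gV`, `gW` act on `P`, `Q` (with fourth power `1`).  By `S_T1` (`U = P`):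
`tr (gV p) = tr (gV | P) - tr (gV S T | P)`, `tr (gW q) = tr (gW | Q) - tr (gW T S | Q)`, and
`tr (gV S T | P) = tr (T gV S | Q) = tr (gW T S | Q)`.  So the difference is `tr (gV | P) - tr (gW | Q)`; `S_T5`. -/
def S_T6 : Prop := ∀ (V W : Type) [AddCommGroup V] [Module ℂ V] [AddCommGroup W] [Module ℂ W]
  (gV : V →ₗ[ℂ] V) (gW : W →ₗ[ℂ] W) (T : V →ₗ[ℂ] W) (S : W →ₗ[ℂ] V), gV ^ 4 = 1 → gW ^ 4 = 1 →
  T ∘ₗ gV = gW ∘ₗ T → S ∘ₗ gW = gV ∘ₗ S → FR (1 - S ∘ₗ T) → FR (1 - T ∘ₗ S) →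
  ∃ x y : ℤ, ftr (gV ∘ₗ (1 - S ∘ₗ T)) - ftr (gW ∘ₗ (1 - T ∘ₗ S)) = x + y * Complex.I

/-! ### The index -/

/-- **I1.** The index does not depend on the parametrix.  (Uses `S_T2`, `S_T3`.)

Proof. Let `S`, `S'` be parametrices, `q = 1 - T S`, `p' = 1 - S' T`, `D = S' - S`.  `S' = S' (T S + q)`, `S = (S' T + p') S`, so
`D = S' q - p' S` has finite rank, and `D gW = gV D`.  The difference of the indices is
`- tr (gV D T) + tr (gW T D) = - tr (gV D T) + tr (T gV D) = 0` (`S_T3` for `gV D` and `T`). -/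
def S_I1 : Prop := ∀ (V W : Type) [NormedAddCommGroup V] [NormedSpace ℂ V] [NormedAddCommGroup W]
  [NormedSpace ℂ W] (gV : V →L[ℂ] V) (gW : W →L[ℂ] W) (T : V →L[ℂ] W) (z z' : ℂ),
  HasInd gV gW T z → HasInd gV gW T z' → z = z'

/-- **I2.** Compositions.  (Uses `S_T2`, `S_T3`.)

Proof. `T : V → W`, `T' : W → X`, parametrices `S`, `S'`, `p = 1 - S T`, `q = 1 - T S`, `p' = 1 - S' T'`, `q' = 1 - T' S'`.
`S S'` is a parametrix: `1 - S S' T' T = p + S p' T`, `1 - T' T S S' = q' + T' q S'`.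
`tr (gV S p' T) = tr (S gW p' T) = tr (gW p' T S) = tr (gW p') - tr (gW p' q)`,
`tr (gX T' q S') = tr (T' gW q S') = tr (gW q S' T') = tr (gW q) - tr (gW q p')`.
And `tr (gW p' q) = tr (p' gW q) = tr (gW q p')` (`p'` commutes with `gW`; `S_T3`).  The sum of the differences is
`tr (gV p) + tr (gW p') - tr (gX q') - tr (gW q)`. -/
def S_I2 : Prop := ∀ (V W X : Type) [NormedAddCommGroup V] [NormedSpace ℂ V]
  [NormedAddCommGroup W] [NormedSpace ℂ W] [NormedAddCommGroup X] [NormedSpace ℂ X]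
  (gV : V →L[ℂ] V) (gW : W →L[ℂ] W) (gX : X →L[ℂ] X) (T : V →L[ℂ] W) (T' : W →L[ℂ] X) (z z' : ℂ),
  HasInd gV gW T z → HasInd gW gX T' z' → HasInd gV gX (T' ∘L T) (z + z')

/-- **I3.** Perturbations of finite rank.  (Uses `S_T2`, `S_T3`.)

Proof. `S` is also a parametrix of `T + F`: `1 - S (T + F) = p - S F`, `1 - (T + F) S = q - F S`, and
`tr (gV S F) = tr (F gV S) = tr (gW F S)`. -/
def S_I3 : Prop := ∀ (V W : Type) [NormedAddCommGroup V] [NormedSpace ℂ V] [NormedAddCommGroup W]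
  [NormedSpace ℂ W] (gV : V →L[ℂ] V) (gW : W →L[ℂ] W) (T F : V →L[ℂ] W) (z : ℂ),
  HasInd gV gW T z → FR (F : V →ₗ[ℂ] W) → F ∘L gV = gW ∘L F → HasInd gV gW (T + F) z

/-- **I4.** Invertible operators have index `0`.

Proof. `p = q = 0`; the parametrix `S` is equivariant: `S gW = S gW T S = S T gV S = gV S`. -/
def S_I4 : Prop := ∀ (V W : Type) [NormedAddCommGroup V] [NormedSpace ℂ V] [NormedAddCommGroup W]
  [NormedSpace ℂ W] (gV : V →L[ℂ] V) (gW : W →L[ℂ] W) (T : V →L[ℂ] W) (S : W →L[ℂ] V),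
  T ∘L gV = gW ∘L T → S ∘L T = 1 → T ∘L S = 1 → HasInd gV gW T 0

/-- **I5.** Block triangular operators.  (Uses `S_T4`.)

Proof. Let `S₁`, `S₂` be parametrices of `A`, `D`.  Parametrix of `T`: `S (x, y) = (S₁ x - S₁ B S₂ y, S₂ y)`.
`1 - S T` is `(x, y) ↦ (p₁ x - S₁ B p₂ y, p₂ y)`, `1 - T S` is `(x, y) ↦ (q₁ x - q₁ B S₂ y, q₂ y)`; `S_T4`. -/
def S_I5 : Prop := ∀ (V₁ V₂ W₁ W₂ : Type) [NormedAddCommGroup V₁] [NormedSpace ℂ V₁]
  [NormedAddCommGroup V₂] [NormedSpace ℂ V₂] [NormedAddCommGroup W₁] [NormedSpace ℂ W₁]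
  [NormedAddCommGroup W₂] [NormedSpace ℂ W₂] (g₁ : V₁ →L[ℂ] V₁) (g₂ : V₂ →L[ℂ] V₂)
  (h₁ : W₁ →L[ℂ] W₁) (h₂ : W₂ →L[ℂ] W₂) (A : V₁ →L[ℂ] W₁) (B : V₂ →L[ℂ] W₁) (D : V₂ →L[ℂ] W₂)
  (T : V₁ × V₂ →L[ℂ] W₁ × W₂) (z w : ℂ), HasInd g₁ h₁ A z → HasInd g₂ h₂ D w →
  B ∘L g₂ = h₁ ∘L B → (∀ x y, T (x, y) = (A x + B y, D y)) →
  HasInd (g₁.prodMap g₂) (h₁.prodMap h₂) T (z + w)

/-- **I6.** Multiplication of `g` with a number.  (Uses `S_T2`.)

Proof. The same parametrix; `tr (c g p) = c tr (g p)` (`g p` has finite rank). -/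
def S_I6 : Prop := ∀ (V W : Type) [NormedAddCommGroup V] [NormedSpace ℂ V] [NormedAddCommGroup W]
  [NormedSpace ℂ W] (gV : V →L[ℂ] V) (gW : W →L[ℂ] W) (T : V →L[ℂ] W) (z c : ℂ),
  HasInd gV gW T z → HasInd (c • gV) (c • gW) T (c * z)

/-- **I7.** Integrality.  (Uses `S_T6`.) -/
def S_I7 : Prop := ∀ (V W : Type) [NormedAddCommGroup V] [NormedSpace ℂ V] [NormedAddCommGroup W]
  [NormedSpace ℂ W] (gV : V →L[ℂ] V) (gW : W →L[ℂ] W) (T : V →L[ℂ] W) (z : ℂ), gV ^ 4 = 1 →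
  gW ^ 4 = 1 → HasInd gV gW T z → ∃ x y : ℤ, z = x + y * Complex.I

/-- **I8.** Transport with isomorphisms.  (Uses `S_I2`, `S_I4`.)

Proof. `e' T e⁻¹` is a composition; `e⁻¹` and `e'` have index `0`. -/
def S_I8 : Prop := ∀ (V W V' W' : Type) [NormedAddCommGroup V] [NormedSpace ℂ V]
  [NormedAddCommGroup W] [NormedSpace ℂ W] [NormedAddCommGroup V'] [NormedSpace ℂ V']
  [NormedAddCommGroup W'] [NormedSpace ℂ W'] (gV : V →L[ℂ] V) (gW : W →L[ℂ] W)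
  (gV' : V' →L[ℂ] V') (gW' : W' →L[ℂ] W') (e : V ≃L[ℂ] V') (e' : W ≃L[ℂ] W') (T : V →L[ℂ] W)
  (T' : V' →L[ℂ] W') (z : ℂ), (∀ x, e (gV x) = gV' (e x)) → (∀ x, e' (gW x) = gW' (e' x)) →
  (∀ x, T' (e x) = e' (T x)) → HasInd gV gW T z → HasInd gV' gW' T' z

/-! ### Small perturbations -/

/-- **Cp.** Norm limits of operators of finite rank form an ideal.  (Uses `S_T2`, `S_T3`.)

Proof. Sums: `ε / 2`.  Compositions: `‖B A - B F‖ ≤ ‖B‖ ‖A - F‖`, choose `‖A - F‖ ≤ ε / (‖B‖ + 1)`. -/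
def S_Cp : Prop := ∀ (V W X : Type) [NormedAddCommGroup V] [NormedSpace ℂ V]
  [NormedAddCommGroup W] [NormedSpace ℂ W] [NormedAddCommGroup X] [NormedSpace ℂ X],
  (∀ A B : V →L[ℂ] W, Cpt A → Cpt B → Cpt (A + B)) ∧
  (∀ (c : ℂ) (A : V →L[ℂ] W), Cpt A → Cpt (c • A)) ∧
  (∀ A : V →L[ℂ] W, FR (A : V →ₗ[ℂ] W) → Cpt A) ∧
  (∀ (A : V →L[ℂ] W) (B : W →L[ℂ] X), Cpt A → Cpt (B ∘L A)) ∧
  ∀ (A : V →L[ℂ] W) (B : W →L[ℂ] X), Cpt B → Cpt (B ∘L A)

/-- **B1.** Stability.  (Uses `S_I2`, `S_I3`, `S_I4`.)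

Proof. `T + D = T (1 + S D) + q D` with `q = 1 - T S`.  `1 + S D` is invertible (`‖S D‖ < 1`, `V` complete; its inverse is
bounded), commutes with `gV`, so it has index `0` (`S_I4`), `T (1 + S D)` has index `0 + z` (`S_I2`), and `q D` has finite rank
and is equivariant (`S_I3`). -/
def S_B1 : Prop := ∀ (V W : Type) [NormedAddCommGroup V] [NormedSpace ℂ V] [CompleteSpace V]
  [NormedAddCommGroup W] [NormedSpace ℂ W] (gV : V →L[ℂ] V) (gW : W →L[ℂ] W) (T D : V →L[ℂ] W)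
  (S : W →L[ℂ] V), Par gV gW T S → D ∘L gV = gW ∘L D → ‖S ∘L D‖ < 1 →
  HasInd gV gW (T + D) (ind gV gW T S)

/-- **B4.** A left parametrix.  (Uses `S_T2`, `S_T3`.)

Proof. Let `F` have finite rank with `‖K - F‖ ≤ (1 - ‖A‖) / 2`, `B = A + (K - F)`, so `S T = 1 - B - F`, `‖B‖ < 1`.  For
`X : V → V` let `av X = 1/4 ∑_{k < 4} gV^k X gV^(4-k)`, for `X : W → V` let `av X = 1/4 ∑_{k < 4} gV^k X gW^(4-k)`: linear,
`‖av X‖ ≤ ‖X‖`, `av X` is equivariant, `av (X T) = av X T`, `av 1 = 1`, and `av F` has finite rank.  So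
`av S T = 1 - av B - av F`.  `U = 1 - av B` is invertible and commutes with `gV`; `S₁ = U⁻¹ av S` satisfies
`S₁ T = 1 - U⁻¹ av F` and `S₁ gW = gV S₁`. -/
def S_B4 : Prop := ∀ (V W : Type) [NormedAddCommGroup V] [NormedSpace ℂ V] [CompleteSpace V]
  [NormedAddCommGroup W] [NormedSpace ℂ W] (gV : V →L[ℂ] V) (gW : W →L[ℂ] W) (T : V →L[ℂ] W)
  (S : W →L[ℂ] V) (A K : V →L[ℂ] V), gV ^ 4 = 1 → gW ^ 4 = 1 → ‖gV‖ ≤ 1 → ‖gW‖ ≤ 1 →
  T ∘L gV = gW ∘L T → ‖A‖ < 1 → Cpt K → S ∘L T = 1 - A - K →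
  ∃ S₁ : W →L[ℂ] V, S₁ ∘L gW = gV ∘L S₁ ∧ FR ((1 - S₁ ∘L T : V →L[ℂ] V) : V →ₗ[ℂ] V)

/-- **B5.** A right parametrix.  (Uses `S_T2`, `S_T3`.)

Proof. As `S_B4`, on the other side: `T (av S) = 1 - av B - av F` on `W`, `S₂ = av S U⁻¹`. -/
def S_B5 : Prop := ∀ (V W : Type) [NormedAddCommGroup V] [NormedSpace ℂ V]
  [NormedAddCommGroup W] [NormedSpace ℂ W] [CompleteSpace W] (gV : V →L[ℂ] V) (gW : W →L[ℂ] W)
  (T : V →L[ℂ] W) (S : W →L[ℂ] V) (A K : W →L[ℂ] W), gV ^ 4 = 1 → gW ^ 4 = 1 → ‖gV‖ ≤ 1 →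
  ‖gW‖ ≤ 1 → T ∘L gV = gW ∘L T → ‖A‖ < 1 → Cpt K → T ∘L S = 1 - A - K →
  ∃ S₂ : W →L[ℂ] V, S₂ ∘L gW = gV ∘L S₂ ∧ FR ((1 - T ∘L S₂ : W →L[ℂ] W) : W →ₗ[ℂ] W)

/-- **B2.** Criterion.  (Uses `S_T2`, `S_T3`, `S_B4`, `S_B5`.)

Proof. `S₁`, `S₂` from `S_B4`, `S_B5`, `p₁ = 1 - S₁ T`, `q₂ = 1 - T S₂` of finite rank.  `S₁ - S₂ = S₁ (T S₂ + q₂) - (S₁ T + p₁) S₂ =
S₁ q₂ - p₁ S₂` has finite rank, so `1 - S₂ T = p₁ + (S₁ - S₂) T` has finite rank, and `S₂` is a parametrix. -/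
def S_B2 : Prop := ∀ (V W : Type) [NormedAddCommGroup V] [NormedSpace ℂ V] [CompleteSpace V]
  [NormedAddCommGroup W] [NormedSpace ℂ W] [CompleteSpace W] (gV : V →L[ℂ] V) (gW : W →L[ℂ] W)
  (T : V →L[ℂ] W) (S S' : W →L[ℂ] V) (A K : V →L[ℂ] V) (A' K' : W →L[ℂ] W), gV ^ 4 = 1 →
  gW ^ 4 = 1 → ‖gV‖ ≤ 1 → ‖gW‖ ≤ 1 → T ∘L gV = gW ∘L T →
  ‖A‖ < 1 → Cpt K → S ∘L T = 1 - A - K → ‖A'‖ < 1 → Cpt K' → T ∘L S' = 1 - A' - K' →
  ∃ z, HasInd gV gW T z

/-- **B3.** Paths.  (Uses `S_I1`, `S_B1`.)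

Proof. Let `A = {s ∈ [0, 1] : HasInd (T s) z}`.  For every `s ∈ [0, 1]` let `S` be a parametrix of `T s`, `z_s` the index; by
continuity `‖S (T s' - T s)‖ < 1` for `s' ∈ [0, 1]` near `s`, so `HasInd (T s') z_s` by `S_B1` (`T s' - T s` is equivariant).  So
`A` and its complement in `[0, 1]` are open in `[0, 1]` (`S_I1`); `0 ∈ A`, and `[0, 1]` is connected. -/
def S_B3 : Prop := ∀ (V W : Type) [NormedAddCommGroup V] [NormedSpace ℂ V] [CompleteSpace V]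
  [NormedAddCommGroup W] [NormedSpace ℂ W] (gV : V →L[ℂ] V) (gW : W →L[ℂ] W)
  (T : ℝ → V →L[ℂ] W) (z : ℂ), ContinuousOn T (Icc 0 1) →
  (∀ s ∈ Icc (0 : ℝ) 1, ∃ w, HasInd gV gW (T s) w) → HasInd gV gW (T 0) z → HasInd gV gW (T 1) z

/-! ### Operators on `ℓ¹` -/

/-- The Banach space `ℓ¹ (ι)`. -/
abbrev H (ι : Type) : Type := lp (fun _ : ι => ℂ) 1

/-- The basis vectors. -/
def de {ι : Type} (a : ι) : H ι := open Classical in lp.single 1 a (1 : ℂ)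

/-- **L1.** Operators with given columns.

Proof. `A x = ∑' a, x a • v a`; the sum converges absolutely (`‖x a • v a‖ ≤ C ‖x a‖`, and `∑' ‖x a‖ = ‖x‖`). -/
def S_L1 : Prop := ∀ (ι E : Type) [NormedAddCommGroup E] [NormedSpace ℂ E] [CompleteSpace E]
  (v : ι → E) (C : ℝ), 0 ≤ C → (∀ a, ‖v a‖ ≤ C) →
  ∃ A : H ι →L[ℂ] E, ‖A‖ ≤ C ∧ ∀ a, A (de a) = v a

/-- **L2.** The norm is the supremum of the norms of the columns (with `C = 0`: operators with equal columns are equal).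

Proof. `x = ∑' a, x a • de a` (`lp.hasSum_single`), so `A x = ∑' a, x a • A (de a)`, and `‖A x‖ ≤ ∑' ‖x a‖ C = C ‖x‖`. -/
def S_L2 : Prop := ∀ (ι E : Type) [NormedAddCommGroup E] [NormedSpace ℂ E],
  (∀ (A : H ι →L[ℂ] E) (C : ℝ), 0 ≤ C → (∀ a, ‖A (de a)‖ ≤ C) → ‖A‖ ≤ C) ∧
  (∀ a : ι, ‖(de a : H ι)‖ = 1) ∧
  ∀ A B : H ι →L[ℂ] E, (∀ a, A (de a) = B (de a)) → A = B

/-- **L3.** Operators whose columns tend to `0`.  (Uses `S_L1`, `S_L2`.)

Proof. Second statement: the range is contained in the span of the finitely many `A (de a)` which are `≠ 0` (`x = ∑' x a • de a`,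
so `A x` is a finite sum of multiples of these vectors).  First: for `ε > 0` let `F` have the columns `A (de a)` if the norm is
`> ε`, and `0` otherwise (`S_L1`); `F` has finite rank and `‖A - F‖ ≤ ε` by `S_L2`. -/
def S_L3 : Prop := ∀ (ι E : Type) [NormedAddCommGroup E] [NormedSpace ℂ E] [CompleteSpace E]
  (A : H ι →L[ℂ] E), ((∀ ε > (0 : ℝ), {a | ε < ‖A (de a)‖}.Finite) → Cpt A) ∧
  ({a | A (de a) ≠ 0}.Finite → FR (A : H ι →ₗ[ℂ] E))

/-- **L5.** Direct sums.  (Uses `S_L1`, `S_L2`.)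

Proof. `e` has the columns `(de a, 0)`, `(0, de b)`; the inverse is the sum of the two operators `H ι → H (ι ⊕ ι')`,
`H ι' → H (ι ⊕ ι')` with the columns `de (inl a)`, `de (inr b)`.  Both compositions are the identity on the basis vectors
(`S_L2`). -/
def S_L5 : Prop := ∀ ι ι' : Type, ∃ e : H (ι ⊕ ι') ≃L[ℂ] H ι × H ι',
  (∀ a, e (de (Sum.inl a)) = (de a, 0)) ∧ ∀ b, e (de (Sum.inr b)) = (0, de b)

/-- **L6.** Relabeling.  (Uses `S_L1`, `S_L2`.)  Proof: columns `de (e a)`, and `de (e.symm b)` for the inverse. -/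
def S_L6 : Prop := ∀ (ι ι' : Type) (e : ι ≃ ι'), ∃ E : H ι ≃L[ℂ] H ι', ∀ a, E (de a) = de (e a)

/-- **L7.** The trace of a diagonal operator of finite rank.  (Uses `S_T1`, `S_L3`.)

Proof. The range is contained in `U = span {de a : a ∈ s}` (as in `S_L3`).  The vectors `de a`, `a ∈ s`, are a basis of `U` of
eigenvectors with the eigenvalues `c a` (linearly independent: coordinates); `LinearMap.trace_eq_matrix_trace`. -/
def S_L7 : Prop := ∀ (ι : Type) (s : Finset ι) (c : ι → ℂ) (A : H ι →L[ℂ] H ι),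
  (∀ a ∈ s, A (de a) = c a • de a) → (∀ a ∉ s, A (de a) = 0) →
  FR (A : H ι →ₗ[ℂ] H ι) ∧ ftr (A : H ι →ₗ[ℂ] H ι) = ∑ a ∈ s, c a

/-- **L8.** Diagonal operators.  (Uses `S_L1`, `S_L2`.)  Proof: columns `c a • de a`. -/
def S_L8 : Prop := ∀ (ι : Type) (c : ι → ℂ), (∀ a, c a ^ 4 = 1) → ∃ g : H ι →L[ℂ] H ι,
  (∀ a, g (de a) = c a • de a) ∧ g ^ 4 = 1 ∧ ‖g‖ ≤ 1

end Pool.Agent.Tate.Idx
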